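import Pool.Agent.R485.Cantor.Orders

set_option autoImplicit false

namespace Pool.Agent.R485.Cantor

open Filter Topology Finset

/-- growth rate of the multiplicities -/
def DD (m : ℕ) : ℕ := 8 * (m + 1) ^ 3 * (m + 2) ^ (m + 1)

/-- multiplicities -/
def PP (m k : ℕ) : ℕ := DD m ^ (m + 1 - k)

/-- the items of length `k`, which are unbalanced in each class modulo `k` -/
noncomputable def badK (m k : ℕ) : List Item :=
  (List.replicate ((k - 1) * PP m k) (zeroItems (m + 2) k k 0)).flatten ++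
    (List.range (k - 1)).flatMap
      (fun r => (List.replicate (PP m k) (nonzeroItems (m + 2) k k (r + 1))).flatten)

/-- the cycles -/
noncomputable def cycA (m : ℕ) : List Item :=
  fullItems (m + 2) (m + 1) 1 0 ++
    (List.range (m + 1)).flatMap (fun k => if 2 ≤ k then badK m k else [])

lemma mem_badK {m k : ℕ} {it : Item} (h : it ∈ badK m k) :
    it.b = m + 2 ∧ it.len = k ∧ it.md = k ∧ it.rs < 1 + (k - 1) ∧ ∀ a, it.w a < it.b := by
  unfold badK at h
  rw [List.mem_append] at h
  rcases h with h | h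
  · rw [List.mem_flatten] at h
    obtain ⟨l, hl, hit⟩ := h
    rw [List.mem_replicate] at hl
    rw [hl.2] at hit
    obtain ⟨h1, h2, h3, h4, h5⟩ := mem_zero hit
    exact ⟨h1, h2, h3, by omega, h5⟩
  · rw [List.mem_flatMap] at h
    obtain ⟨r, hr, h⟩ := h
    rw [List.mem_flatten] at h
    obtain ⟨l, hl, hit⟩ := h
    rw [List.mem_replicate] at hl
    rw [hl.2] at hit
    rw [List.mem_range] at hr
    obtain ⟨h1, h2, h3, h4, h5⟩ := mem_nonzero hit
    exact ⟨h1, h2, h3, by omega, h5⟩

lemma mem_cycA {m : ℕ} {it : Item} (h : it ∈ cycA m) :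
    it.b = m + 2 ∧ (1 ≤ it.len ∧ it.len ≤ m + 1) ∧ (1 ≤ it.md ∧ it.md ≤ m + 1) ∧
      it.rs < it.md ∧ ∀ a, it.w a < it.b := by
  unfold cycA at h
  rw [List.mem_append] at h
  rcases h with h | h
  · obtain ⟨h1, h2, h3, h4, h5⟩ := mem_full h
    exact ⟨h1, by omega, by omega, by omega, h5⟩
  · rw [List.mem_flatMap] at h
    obtain ⟨k, hk, h⟩ := h
    rw [List.mem_range] at hk
    split_ifs at h with hk2
    · obtain ⟨h1, h2, h3, h4, h5⟩ := mem_badK h
      exact ⟨h1, by omega, by omega, by omega, h5⟩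
    · simp at h

lemma cycA_cyc : Cyc cycA (fun m => m + 2) := by
  refine ⟨fun m h => ?_, fun m => le_rfl, fun m it h => (mem_cycA h).1,
    fun m it h => (mem_cycA h).2.2.2.2, fun m it h => (mem_cycA h).2.2.1,
    fun m it h => (mem_cycA h).2.2.2.1, fun m it h => (mem_cycA h).2.1⟩
  unfold cycA at h
  rw [List.append_eq_nil_iff] at h
  exact full_ne _ _ _ h.1

lemma sum_flatMap_range (n : ℕ) (f : ℕ → List Item) (F : Item → ℝ) :
    (((List.range n).flatMap f).map F).sum = ∑ i ∈ range n, ((f i).map F).sum := by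
  induction n with
  | zero => simp
  | succ n ih =>
    rw [List.range_succ, List.flatMap_append, List.map_append, List.sum_append, ih, sum_range_succ]
    simp

lemma sum_badK (m k : ℕ) (F : Item → ℝ) :
    ((badK m k).map F).sum =
      (((k - 1) * PP m k : ℕ) : ℝ) * ((zeroItems (m + 2) k k 0).map F).sum +
        ∑ r ∈ range (k - 1), (PP m k : ℝ) * ((nonzeroItems (m + 2) k k (r + 1)).map F).sum := by
  unfold badK
  rw [List.map_append, List.sum_append, sum_flatten_replicate, sum_flatMap_range]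
  simp_rw [sum_flatten_replicate]

lemma sum_cycA (m : ℕ) (F : Item → ℝ) :
    ((cycA m).map F).sum = ((fullItems (m + 2) (m + 1) 1 0).map F).sum +
      ∑ k ∈ range (m + 1), if 2 ≤ k then ((badK m k).map F).sum else 0 := by
  unfold cycA
  rw [List.map_append, List.sum_append, sum_flatMap_range]
  congr 1
  refine sum_congr rfl fun k _ => ?_
  split_ifs <;> simp

lemma map_congr_sum (l : List Item) (F G : Item → ℝ) (h : ∀ it ∈ l, F it = G it) :
    (l.map F).sum = (l.map G).sum := by
  rw [List.map_congr_left h]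

/-- functionals which do not depend on the place -/
def Blind (F : Item → ℝ) : Prop :=
  ∀ (b L md rs : ℕ) (w : Fin L → ZMod b), F (mk b L md rs w) = F (mk b L 1 0 w)

lemma blind_X (k : ℕ) : Blind (Xf k) := fun _ _ _ _ _ => rfl

lemma blind_Y {k : ℕ} (B : Fin k → ℕ) : Blind (Yf B) := fun _ _ _ _ _ => rfl

lemma zero_add_nonzero {b : ℕ} [NeZero b] {F : Item → ℝ} (hF : Blind F) (L md rs md' rs' : ℕ) :
    ((zeroItems b L md rs).map F).sum + ((nonzeroItems b L md' rs').map F).sum =
      ((fullItems b L 1 0).map F).sum := by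
  rw [sum_zero, sum_nonzero, sum_full]
  rw [sum_congr rfl (fun w _ => hF b L md rs w), sum_congr rfl (fun w _ => hF b L md' rs' w)]
  exact sum_filter_add_sum_filter_not _ _ _

lemma sum_badK_blind {F : Item → ℝ} (hF : Blind F) (m k : ℕ) :
    ((badK m k).map F).sum =
      (((k - 1) * PP m k : ℕ) : ℝ) * ((fullItems (m + 2) k 1 0).map F).sum := by
  rw [sum_badK]
  have h1 : ∀ r, ((nonzeroItems (m + 2) k k (r + 1)).map F).sum =
      ((fullItems (m + 2) k 1 0).map F).sum - ((zeroItems (m + 2) k k 0).map F).sum := by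
    intro r
    have := zero_add_nonzero (b := m + 2) hF k k 0 k (r + 1)
    linarith
  simp_rw [h1]
  rw [sum_const, card_range, nsmul_eq_mul]
  push_cast
  ring

/-- the mass of the items which are longer than `k` -/
def GG (m k : ℕ) : ℕ := (m + 1 + 1 - k) * (m + 2) ^ (m + 1 - k) +
  ∑ k' ∈ range (m + 1), if k < k' then (k' - 1) * PP m k' * ((k' + 1 - k) * (m + 2) ^ (k' - k)) else 0

lemma GG_le {m k : ℕ} (hk : 1 ≤ k) (hkm : k ≤ m) : 4 * GG m k ≤ PP m k := by
  have hD : 1 ≤ DD m := by
    unfold DD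
    have : 0 < 8 * (m + 1) ^ 3 * (m + 2) ^ (m + 1) := by positivity
    omega
  set U := (m + 1) ^ 3 * (m + 2) ^ (m + 1) * DD m ^ (m - k) with hU
  have h0 : 1 ≤ DD m ^ (m - k) := Nat.one_le_pow _ _ hD
  have h1 : (m + 1 + 1 - k) * (m + 2) ^ (m + 1 - k) ≤ U := by
    calc (m + 1 + 1 - k) * (m + 2) ^ (m + 1 - k) ≤ (m + 1) ^ 3 * (m + 2) ^ (m + 1) := by
          apply Nat.mul_le_mul
          · calc m + 1 + 1 - k ≤ m + 1 := by omega
              _ = (m + 1) ^ 1 := (pow_one _).symm
              _ ≤ (m + 1) ^ 3 := Nat.pow_le_pow_right (by omega) (by norm_num)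
          · exact Nat.pow_le_pow_right (by omega) (by omega)
      _ = (m + 1) ^ 3 * (m + 2) ^ (m + 1) * 1 := by ring
      _ ≤ U := Nat.mul_le_mul_left _ h0
  have h2 : ∑ k' ∈ range (m + 1), (if k < k' then
      (k' - 1) * PP m k' * ((k' + 1 - k) * (m + 2) ^ (k' - k)) else 0) ≤ U := by
    calc ∑ k' ∈ range (m + 1), (if k < k' then
          (k' - 1) * PP m k' * ((k' + 1 - k) * (m + 2) ^ (k' - k)) else 0)
        ≤ ∑ k' ∈ range (m + 1), (m + 1) * DD m ^ (m - k) * ((m + 1) * (m + 2) ^ (m + 1)) := by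
          apply sum_le_sum
          intro k' hk'
          rw [mem_range] at hk'
          split_ifs with h
          · unfold PP
            apply Nat.mul_le_mul
            · apply Nat.mul_le_mul (by omega)
              exact Nat.pow_le_pow_right hD (by omega)
            · apply Nat.mul_le_mul (by omega)
              exact Nat.pow_le_pow_right (by omega) (by omega)
          · exact Nat.zero_le _
      _ = U := by rw [sum_const, card_range, smul_eq_mul, hU]; ring
  have h3 : PP m k = 8 * U := by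
    unfold PP
    have : m + 1 - k = (m - k) + 1 := by omega
    rw [this, pow_succ, hU]
    unfold DD
    ring
  unfold GG
  rw [h3]
  omega

lemma PP_ge {m k : ℕ} (hkm : k ≤ m) : 2 * (m + 2) ≤ PP m k := by
  have hD : 2 * (m + 2) ≤ DD m := by
    unfold DD
    have h1 : m + 2 ≤ (m + 2) ^ (m + 1) := by
      calc m + 2 = (m + 2) ^ 1 := (pow_one _).symm
        _ ≤ (m + 2) ^ (m + 1) := Nat.pow_le_pow_right (by omega) (by omega)
    have h2 : 1 ≤ (m + 1) ^ 3 := Nat.one_le_pow _ _ (by omega)
    calc 2 * (m + 2) ≤ 8 * 1 * (m + 2) := by omega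
      _ ≤ 8 * (m + 1) ^ 3 * (m + 2) ^ (m + 1) := by
          apply Nat.mul_le_mul _ h1
          exact Nat.mul_le_mul_left _ h2
  unfold PP
  calc 2 * (m + 2) ≤ DD m := hD
    _ = DD m ^ 1 := (pow_one _).symm
    _ ≤ DD m ^ (m + 1 - k) := Nat.pow_le_pow_right (by omega) (by omega)

/-- the block of `k` zeros -/
def B0 (k : ℕ) : Fin k → ℕ := fun _ => 0

/-- lower functional for the weights -/
noncomputable def Lo (k r : ℕ) (it : Item) : ℝ :=
  if it.md = k ∧ it.len = k ∧ it.rs = r then Xf k it else 0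

/-- upper functional for the weights, residue zero -/
noncomputable def XUp (k : ℕ) (it : Item) : ℝ :=
  if it.md = k ∧ it.len = k ∧ it.rs ≠ 0 then 0 else Xf k it

/-- lower functional for the occurrences, residue zero -/
noncomputable def YLo (k : ℕ) (it : Item) : ℝ :=
  if it.md = k ∧ it.len = k ∧ it.rs = 0 then Yf (B0 k) it else 0

/-- upper functional for the occurrences -/
noncomputable def YUp (k r : ℕ) (it : Item) : ℝ :=
  if it.md = k ∧ it.len = k ∧ it.rs ≠ r then 0 else Yf (B0 k) it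

section pointwise

variable {σ : ℕ → Item}

lemma Lo_le (h : Good σ) (k r t : ℕ) :
    Lo k r (σ t) ≤ ((winSet (σ t) (st σ t) k k r).card : ℝ) * (((σ t).b : ℝ) ^ k)⁻¹ := by
  unfold Lo
  split_ifs with hc
  · obtain ⟨h1, h2, h3⟩ := hc
    unfold Xf
    rw [h2, show k + 1 - k = 1 by omega, Nat.cast_one]
    apply mul_le_mul_of_nonneg_right _ (by positivity)
    have h4 : 0 ∈ winSet (σ t) (st σ t) k k r := by
      unfold winSet
      rw [mem_filter, mem_range]
      refine ⟨by omega, ?_⟩
      have := st_mod h t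
      rw [h1, h3] at this
      rw [add_zero, this]
    exact_mod_cast card_pos.2 ⟨0, h4⟩
  · positivity

lemma le_XUp (h : Good σ) (k t : ℕ) :
    ((winSet (σ t) (st σ t) k k 0).card : ℝ) * (((σ t).b : ℝ) ^ k)⁻¹ ≤ XUp k (σ t) := by
  unfold XUp
  split_ifs with hc
  · obtain ⟨h1, h2, h3⟩ := hc
    have h4 : winSet (σ t) (st σ t) k k 0 = ∅ := by
      unfold winSet
      rw [filter_eq_empty_iff]
      intro a ha
      rw [mem_range, h2] at ha
      have ha0 : a = 0 := by omega
      subst ha0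
      have := st_mod h t
      rw [h1] at this
      rw [add_zero, this]
      exact h3
    rw [h4, card_empty]
    simp
  · unfold Xf
    apply mul_le_mul_of_nonneg_right _ (by positivity)
    have : (winSet (σ t) (st σ t) k k 0).card ≤ (σ t).len + 1 - k := by
      unfold winSet
      exact (card_filter_le _ _).trans (card_range _).le
    exact_mod_cast this

lemma YLo_le (h : Good σ) (k t : ℕ) :
    YLo k (σ t) ≤ ((occSet (σ t) (st σ t) (B0 k) k 0).card : ℝ) := by
  unfold YLo
  split_ifs with hc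
  · obtain ⟨h1, h2, h3⟩ := hc
    unfold Yf
    have : occSet (σ t) 0 (B0 k) 1 0 ⊆ occSet (σ t) (st σ t) (B0 k) k 0 := by
      intro a ha
      unfold occSet at ha ⊢
      rw [mem_filter, mem_range] at ha ⊢
      refine ⟨ha.1, ?_, ha.2.2⟩
      have ha0 : a = 0 := by have := ha.1; omega
      subst ha0
      have := st_mod h t
      rw [h1, h3] at this
      rw [add_zero, this]
    exact_mod_cast card_le_card this
  · positivity

lemma le_YUp (h : Good σ) (k r t : ℕ) :
    ((occSet (σ t) (st σ t) (B0 k) k r).card : ℝ) ≤ YUp k r (σ t) := by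
  unfold YUp
  split_ifs with hc
  · obtain ⟨h1, h2, h3⟩ := hc
    have h4 : occSet (σ t) (st σ t) (B0 k) k r = ∅ := by
      unfold occSet
      rw [filter_eq_empty_iff]
      intro a ha
      rw [mem_range, h2] at ha
      have ha0 : a = 0 := by omega
      subst ha0
      have := st_mod h t
      rw [h1] at this
      rw [add_zero, this]
      exact fun h5 => h3 h5.1
    rw [h4, card_empty]
    simp
  · unfold Yf
    have : occSet (σ t) (st σ t) (B0 k) k r ⊆ occSet (σ t) 0 (B0 k) 1 0 := by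
      intro a ha
      unfold occSet at ha ⊢
      rw [mem_filter, mem_range] at ha ⊢
      exact ⟨ha.1, Nat.mod_one _, ha.2.2⟩
    exact_mod_cast card_le_card this

end pointwise

lemma lsum_map_sub {α : Type*} (l : List α) (F G : α → ℝ) :
    (l.map (fun it => F it - G it)).sum = (l.map F).sum - (l.map G).sum := by
  induction l with
  | nil => simp
  | cons a l ih =>
    simp only [List.map_cons, List.sum_cons]
    rw [ih]
    ring

/-- the mass of the longer items, as a real sum -/
lemma GG_cast {m k : ℕ} (hk : 2 ≤ k) :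
    ((m + 1 + 1 - k : ℕ) : ℝ) * ((m + 2 : ℕ) : ℝ) ^ (m + 1 - k) +
      ∑ k' ∈ range (m + 1), (if 2 ≤ k' ∧ k' ≠ k then (((k' - 1) * PP m k' : ℕ) : ℝ) *
        (((k' + 1 - k : ℕ) : ℝ) * ((m + 2 : ℕ) : ℝ) ^ (k' - k)) else 0) = (GG m k : ℝ) := by
  unfold GG
  generalize hb : m + 2 = b
  rw [Nat.cast_add, Nat.cast_mul, Nat.cast_pow, Nat.cast_sum]
  congr 1
  refine sum_congr rfl fun k' _ => ?_
  by_cases h : k < k'
  · rw [if_pos ⟨by omega, by omega⟩, if_pos h]
    push_cast
    ring
  · rw [if_neg h]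
    split_ifs with h2
    · have : k' + 1 - k = 0 := by omega
      rw [this]
      simp
    · simp

lemma split_k {m k : ℕ} (hk : k ≤ m) (f : ℕ → ℝ) :
    ∑ k' ∈ range (m + 1), f k' = f k + ∑ k' ∈ range (m + 1), (if k' ≠ k then f k' else 0) := by
  rw [← sum_filter, filter_ne', ← add_sum_erase _ _ (mem_range.2 (Nat.lt_succ_of_le hk))]

/-- residue zero: too many occurrences -/
lemma cyc_big {m k : ℕ} (hk : 2 ≤ k) (hkm : k ≤ m) :
    0 ≤ ((cycA m).map (fun it => YLo k it - 4 / 3 * XUp k it)).sum := by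
  have hb : (4 : ℝ) ≤ ((m + 2 : ℕ) : ℝ) := by exact_mod_cast (by omega : 4 ≤ m + 2)
  rw [sum_cycA]
  -- the long items
  have h1 : ((fullItems (m + 2) (m + 1) 1 0).map (fun it => YLo k it - 4 / 3 * XUp k it)).sum =
      -(4 / 3) * (((m + 1 + 1 - k : ℕ) : ℝ) * ((m + 2 : ℕ) : ℝ) ^ (m + 1 - k)) := by
    rw [← full_X (b := m + 2) (m + 1) 1 0 k, ← List.sum_map_mul_left]
    apply map_congr_sum
    intro it hit
    obtain ⟨-, h2, h3, -, -⟩ := mem_full hit
    unfold YLo XUp
    rw [if_neg (by omega), if_neg (by omega)]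
    ring
  have h2 : ∀ k', 2 ≤ k' → k' ≠ k →
      ((badK m k').map (fun it => YLo k it - 4 / 3 * XUp k it)).sum =
      -(4 / 3) * ((((k' - 1) * PP m k' : ℕ) : ℝ) *
        (((k' + 1 - k : ℕ) : ℝ) * ((m + 2 : ℕ) : ℝ) ^ (k' - k))) := by
    intro k' hk' hne
    rw [← full_X (b := m + 2) k' 1 0 k, ← sum_badK_blind (blind_X k), ← List.sum_map_mul_left]
    apply map_congr_sum
    intro it hit
    obtain ⟨-, h2, h3, -, -⟩ := mem_badK hit
    unfold YLo XUp
    rw [if_neg (by omega), if_neg (by omega)]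
    ring
  have h3 : (PP m k : ℝ) * (2 / 3) ≤ ((badK m k).map (fun it => YLo k it - 4 / 3 * XUp k it)).sum := by
    rw [sum_badK]
    have h4 : ((zeroItems (m + 2) k k 0).map (fun it => YLo k it - 4 / 3 * XUp k it)).sum =
        1 - 4 / 3 * ((zeroItems (m + 2) k k 0).map (Xf k)).sum := by
      rw [← zero_Y_self (b := m + 2) k k 0]
      rw [← List.sum_map_mul_left]
      rw [← lsum_map_sub]
      apply map_congr_sum
      intro it hit
      obtain ⟨-, h2, h3, h4, -⟩ := mem_zero hit
      unfold YLo XUp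
      rw [if_pos ⟨h3, h2, h4⟩, if_neg (by tauto)]
      rfl
    have h5 : ∀ r, ((nonzeroItems (m + 2) k k (r + 1)).map (fun it => YLo k it - 4 / 3 * XUp k it)).sum =
        0 := by
      intro r
      apply List.sum_eq_zero
      intro a ha
      rw [List.mem_map] at ha
      obtain ⟨it, hit, rfl⟩ := ha
      obtain ⟨-, h2, h3, h4, -⟩ := mem_nonzero hit
      unfold YLo XUp
      rw [if_neg (by omega), if_pos ⟨h3, h2, by omega⟩]
      ring
    rw [h4]
    simp_rw [h5]
    have h6 := zero_X (b := m + 2) (by omega : 1 ≤ k) k 0 k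
    rw [Nat.sub_self, pow_zero, show k + 1 - k = 1 by omega] at h6
    set X := ((zeroItems (m + 2) k k 0).map (Xf k)).sum
    have hX0 : 0 ≤ X := X_nonneg _ _
    have hX : X ≤ 1 / 4 := by
      rw [Nat.cast_one, one_mul] at h6
      nlinarith
    have h7 : (PP m k : ℝ) ≤ (((k - 1) * PP m k : ℕ) : ℝ) := by
      have : PP m k ≤ (k - 1) * PP m k := Nat.le_mul_of_pos_left _ (by omega)
      exact_mod_cast this
    have h8 : (0 : ℝ) ≤ PP m k := Nat.cast_nonneg _
    simp only [mul_zero, sum_const_zero, add_zero]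
    nlinarith
  rw [split_k hkm, h1, if_pos hk]
  have h4 : ∑ k' ∈ range (m + 1), (if k' ≠ k then (if 2 ≤ k' then
      ((badK m k').map (fun it => YLo k it - 4 / 3 * XUp k it)).sum else 0) else 0) =
      -(4 / 3) * ∑ k' ∈ range (m + 1), (if 2 ≤ k' ∧ k' ≠ k then (((k' - 1) * PP m k' : ℕ) : ℝ) *
        (((k' + 1 - k : ℕ) : ℝ) * ((m + 2 : ℕ) : ℝ) ^ (k' - k)) else 0) := by
    rw [mul_sum]
    refine sum_congr rfl fun k' _ => ?_
    by_cases h5 : k' = k
    · rw [if_neg (by tauto), if_neg (by tauto)]; ring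
    · by_cases h6 : 2 ≤ k'
      · rw [if_pos h5, if_pos h6, if_pos ⟨h6, h5⟩, h2 k' h6 h5]
      · rw [if_pos h5, if_neg h6, if_neg (by tauto)]; ring
  rw [h4]
  have h5 := GG_cast (m := m) hk
  have h6 : (4 : ℝ) * GG m k ≤ PP m k := by exact_mod_cast GG_le (by omega) hkm
  rw [← h5] at h6
  have h7 : (0 : ℝ) ≤ PP m k := Nat.cast_nonneg _
  linarith

/-- the other residues: too few occurrences -/
lemma cyc_small {m k r : ℕ} (hk : 2 ≤ k) (hkm : k ≤ m) (hr : 1 ≤ r) (hrk : r < k) :
    0 ≤ ((cycA m).map (fun it => 1 / 2 * Lo k r it - YUp k r it)).sum := by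
  have hb : (4 : ℝ) ≤ ((m + 2 : ℕ) : ℝ) := by exact_mod_cast (by omega : 4 ≤ m + 2)
  have hB : ∀ j, B0 k j < m + 2 := fun _ => by unfold B0; omega
  rw [sum_cycA]
  have h1 : ((fullItems (m + 2) (m + 1) 1 0).map (fun it => 1 / 2 * Lo k r it - YUp k r it)).sum =
      -1 * (((m + 1 + 1 - k : ℕ) : ℝ) * ((m + 2 : ℕ) : ℝ) ^ (m + 1 - k)) := by
    rw [← full_Y (b := m + 2) (m + 1) 1 0 (B0 k) hB, ← List.sum_map_mul_left]
    apply map_congr_sum
    intro it hit
    obtain ⟨-, h2, h3, -, -⟩ := mem_full hit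
    unfold Lo YUp
    rw [if_neg (by omega), if_neg (by omega)]
    ring
  have h2 : ∀ k', 2 ≤ k' → k' ≠ k →
      ((badK m k').map (fun it => 1 / 2 * Lo k r it - YUp k r it)).sum =
      -1 * ((((k' - 1) * PP m k' : ℕ) : ℝ) *
        (((k' + 1 - k : ℕ) : ℝ) * ((m + 2 : ℕ) : ℝ) ^ (k' - k))) := by
    intro k' hk' hne
    rw [← full_Y (b := m + 2) k' 1 0 (B0 k) hB, ← sum_badK_blind (blind_Y (B0 k)),
      ← List.sum_map_mul_left]
    apply map_congr_sum
    intro it hit
    obtain ⟨-, h2, h3, -, -⟩ := mem_badK hit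
    unfold Lo YUp
    rw [if_neg (by omega), if_neg (by omega)]
    ring
  have h3 : (PP m k : ℝ) * (1 / 4) ≤ ((badK m k).map (fun it => 1 / 2 * Lo k r it - YUp k r it)).sum := by
    rw [sum_badK]
    have h4 : ((zeroItems (m + 2) k k 0).map (fun it => 1 / 2 * Lo k r it - YUp k r it)).sum = 0 := by
      apply List.sum_eq_zero
      intro a ha
      rw [List.mem_map] at ha
      obtain ⟨it, hit, rfl⟩ := ha
      obtain ⟨-, h2, h3, h4, -⟩ := mem_zero hit
      unfold Lo YUp
      rw [if_neg (by omega), if_pos ⟨h3, h2, by omega⟩]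
      ring
    have h5 : ∀ r' ∈ range (k - 1),
        (PP m k : ℝ) * ((nonzeroItems (m + 2) k k (r' + 1)).map (fun it => 1 / 2 * Lo k r it - YUp k r it)).sum =
        if r' = r - 1 then (PP m k : ℝ) *
          (1 / 2 * ((nonzeroItems (m + 2) k k r).map (Xf k)).sum) else 0 := by
      intro r' _
      split_ifs with hr'
      · have hrr : r' + 1 = r := by omega
        rw [hrr]
        congr 1
        have h6 := nonzero_Y_self (b := m + 2) k k r
        have h7 : ((nonzeroItems (m + 2) k k r).map (fun it => 1 / 2 * Lo k r it - YUp k r it)).sum =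
            1 / 2 * ((nonzeroItems (m + 2) k k r).map (Xf k)).sum -
              ((nonzeroItems (m + 2) k k r).map (Yf (fun _ : Fin k => 0))).sum := by
          rw [← List.sum_map_mul_left, ← lsum_map_sub]
          apply map_congr_sum
          intro it hit
          obtain ⟨-, h2, h3, h4, -⟩ := mem_nonzero hit
          unfold Lo YUp
          rw [if_pos ⟨h3, h2, h4⟩, if_neg (by tauto)]
          rfl
        rw [h7, h6, sub_zero]
      · have : ((nonzeroItems (m + 2) k k (r' + 1)).map
            (fun it => 1 / 2 * Lo k r it - YUp k r it)).sum = 0 := by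
          apply List.sum_eq_zero
          intro a ha
          rw [List.mem_map] at ha
          obtain ⟨it, hit, rfl⟩ := ha
          obtain ⟨-, h2, h3, h4, -⟩ := mem_nonzero hit
          unfold Lo YUp
          rw [if_neg (by omega), if_pos ⟨h3, h2, by omega⟩]
          ring
        rw [this, mul_zero]
    rw [h4, sum_congr rfl h5, sum_ite_eq' (range (k - 1)) (r - 1), if_pos (mem_range.2 (by omega))]
    have h6 := zero_X (b := m + 2) (by omega : 1 ≤ k) k 0 k
    rw [Nat.sub_self, pow_zero, show k + 1 - k = 1 by omega] at h6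
    have h8 := zero_add_nonzero (b := m + 2) (blind_X k) k k 0 k r
    rw [full_X, Nat.sub_self, pow_zero, show k + 1 - k = 1 by omega, Nat.cast_one, one_mul] at h8
    set X := ((zeroItems (m + 2) k k 0).map (Xf k)).sum
    have hX0 : 0 ≤ X := X_nonneg _ _
    have hX : X ≤ 1 / 4 := by
      rw [Nat.cast_one, one_mul] at h6
      nlinarith
    have h9 : (0 : ℝ) ≤ PP m k := Nat.cast_nonneg _
    have h10 : ((nonzeroItems (m + 2) k k r).map (Xf k)).sum = 1 - X := by linarith
    rw [h10, mul_zero, zero_add]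
    nlinarith
  rw [split_k hkm, h1, if_pos hk]
  have h4 : ∑ k' ∈ range (m + 1), (if k' ≠ k then (if 2 ≤ k' then
      ((badK m k').map (fun it => 1 / 2 * Lo k r it - YUp k r it)).sum else 0) else 0) =
      -1 * ∑ k' ∈ range (m + 1), (if 2 ≤ k' ∧ k' ≠ k then (((k' - 1) * PP m k' : ℕ) : ℝ) *
        (((k' + 1 - k : ℕ) : ℝ) * ((m + 2 : ℕ) : ℝ) ^ (k' - k)) else 0) := by
    rw [mul_sum]
    refine sum_congr rfl fun k' _ => ?_
    by_cases h5 : k' = k
    · rw [if_neg (by tauto), if_neg (by tauto)]; ring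
    · by_cases h6 : 2 ≤ k'
      · rw [if_pos h5, if_pos h6, if_pos ⟨h6, h5⟩, h2 k' h6 h5]
      · rw [if_pos h5, if_neg h6, if_neg (by tauto)]; ring
  rw [h4]
  have h5 := GG_cast (m := m) hk
  have h6 : (4 : ℝ) * GG m k ≤ PP m k := by exact_mod_cast GG_le (by omega) hkm
  rw [← h5] at h6
  have h7 : (0 : ℝ) ≤ PP m k := Nat.cast_nonneg _
  linarith

lemma list_sum_nonneg (l : List Item) (F : Item → ℝ) (h : ∀ it, 0 ≤ F it) : 0 ≤ (l.map F).sum := by
  apply List.sum_nonneg
  intro a ha
  rw [List.mem_map] at ha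
  obtain ⟨it, -, rfl⟩ := ha
  exact h it

lemma Lo_nonneg (k r : ℕ) (it : Item) : 0 ≤ Lo k r it := by
  unfold Lo
  split_ifs
  · exact Xf_nonneg _ _
  · exact le_rfl

/-- the lower functional is at least one on each cycle -/
lemma one_le_Lo {m k r : ℕ} (hk : 2 ≤ k) (hkm : k ≤ m) (hrk : r < k) :
    1 ≤ ((cycA m).map (Lo k r)).sum := by
  have hb : (4 : ℝ) ≤ ((m + 2 : ℕ) : ℝ) := by exact_mod_cast (by omega : 4 ≤ m + 2)
  have hP : (2 : ℝ) * ((m + 2 : ℕ) : ℝ) ≤ PP m k := by exact_mod_cast PP_ge hkm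
  rw [sum_cycA, split_k hkm, if_pos hk]
  have h1 := list_sum_nonneg (fullItems (m + 2) (m + 1) 1 0) (Lo k r) (Lo_nonneg k r)
  have h2 : 0 ≤ ∑ k' ∈ range (m + 1), (if k' ≠ k then (if 2 ≤ k' then
      ((badK m k').map (Lo k r)).sum else 0) else 0) := by
    apply sum_nonneg
    intro k' _
    split_ifs
    · exact list_sum_nonneg _ _ (Lo_nonneg k r)
    · exact le_rfl
    · exact le_rfl
  have h6 := zero_X (b := m + 2) (by omega : 1 ≤ k) k 0 k
  rw [Nat.sub_self, pow_zero, show k + 1 - k = 1 by omega] at h6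
  have h3 : 1 ≤ ((badK m k).map (Lo k r)).sum := by
    rw [sum_badK]
    have hz := list_sum_nonneg (zeroItems (m + 2) k k 0) (Lo k r) (Lo_nonneg k r)
    have hn : ∀ r', 0 ≤ (PP m k : ℝ) * ((nonzeroItems (m + 2) k k (r' + 1)).map (Lo k r)).sum :=
      fun r' => mul_nonneg (Nat.cast_nonneg _) (list_sum_nonneg _ _ (Lo_nonneg k r))
    have h9 : (0 : ℝ) ≤ PP m k := Nat.cast_nonneg _
    have h10 : (PP m k : ℝ) ≤ (((k - 1) * PP m k : ℕ) : ℝ) := by
      have : PP m k ≤ (k - 1) * PP m k := Nat.le_mul_of_pos_left _ (by omega)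
      exact_mod_cast this
    rcases Nat.eq_zero_or_pos r with rfl | hr
    · have h4 : ((zeroItems (m + 2) k k 0).map (Lo k 0)).sum =
          ((zeroItems (m + 2) k k 0).map (Xf k)).sum := by
        apply map_congr_sum
        intro it hit
        obtain ⟨-, h2, h3, h4, -⟩ := mem_zero hit
        unfold Lo
        rw [if_pos ⟨h3, h2, h4⟩]
      rw [h4]
      set X := ((zeroItems (m + 2) k k 0).map (Xf k)).sum
      have h5 : 0 ≤ ∑ r' ∈ range (k - 1),
          (PP m k : ℝ) * ((nonzeroItems (m + 2) k k (r' + 1)).map (Lo k 0)).sum :=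
        sum_nonneg fun r' _ => hn r'
      have hX0 : 0 ≤ X := X_nonneg _ _
      rw [Nat.cast_one, one_mul] at h6
      have h11 : 2 ≤ (PP m k : ℝ) * X := by nlinarith
      nlinarith
    · have h4 : (PP m k : ℝ) * ((nonzeroItems (m + 2) k k (r - 1 + 1)).map (Lo k r)).sum ≤
          ∑ r' ∈ range (k - 1),
          (PP m k : ℝ) * ((nonzeroItems (m + 2) k k (r' + 1)).map (Lo k r)).sum :=
        single_le_sum (f := fun r' => (PP m k : ℝ) *
          ((nonzeroItems (m + 2) k k (r' + 1)).map (Lo k r)).sum) (fun r' _ => hn r')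
          (mem_range.2 (by omega))
      have h5 : ((nonzeroItems (m + 2) k k (r - 1 + 1)).map (Lo k r)).sum =
          ((nonzeroItems (m + 2) k k r).map (Xf k)).sum := by
        rw [Nat.sub_add_cancel hr]
        apply map_congr_sum
        intro it hit
        obtain ⟨-, h2, h3, h4, -⟩ := mem_nonzero hit
        unfold Lo
        rw [if_pos ⟨h3, h2, h4⟩]
      rw [h5] at h4
      have h8 := zero_add_nonzero (b := m + 2) (blind_X k) k k 0 k r
      rw [full_X, Nat.sub_self, pow_zero, show k + 1 - k = 1 by omega, Nat.cast_one, one_mul] at h8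
      set X := ((zeroItems (m + 2) k k 0).map (Xf k)).sum
      have hX0 : 0 ≤ X := X_nonneg _ _
      have hX : X ≤ 1 / 4 := by
        rw [Nat.cast_one, one_mul] at h6
        nlinarith
      have h12 : ((nonzeroItems (m + 2) k k r).map (Xf k)).sum = 1 - X := by linarith
      rw [h12] at h4
      have h13 : 0 ≤ (((k - 1) * PP m k : ℕ) : ℝ) * ((zeroItems (m + 2) k k 0).map (Lo k r)).sum :=
        mul_nonneg (Nat.cast_nonneg _) hz
      nlinarith
  linarith

theorem ap : ∃ (q : ℕ → ℕ) (x : ℝ), Basic q ∧ Tendsto q atTop atTop ∧ FullyDivergentI q ∧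
    (∀ k, 1 ≤ k → NormalOfOrder q k x) ∧ ∀ k r, 2 ≤ k → r < k → ¬ APNormal q k k r x := by
  obtain ⟨σ, A, μ, ν, x, H⟩ := realize cycA_cyc
  refine ⟨qS σ, x, basic_qS H.good, tendsto_qS H.good, ?_, ?_, ?_⟩
  · -- divergence
    intro k M r hk hM hr
    have hg := xx_growth H k M r hk (fun it => if k + M ≤ it.len + 1 then ((it.b : ℝ) ^ k)⁻¹ else 0)
      (fun it => by positivity) ?_ (k + M) ?_
    · obtain ⟨C, -, -, h3, -⟩ := sandwich H hk (fun _ : Fin k => 0) M r
      apply tendsto_atTop_mono h3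
      exact tendsto_atTop_add_const_right _ (-C) (hg.1.comp H.hν)
    · intro t
      split_ifs with hc
      · obtain ⟨i, hi1, hi2, hi3⟩ := exists_mod (st σ t) M r hr
        have h4 : i - st σ t ∈ winSet (σ t) (st σ t) k M r := by
          unfold winSet
          rw [mem_filter, mem_range]
          refine ⟨by omega, ?_⟩
          rw [Nat.add_sub_cancel' hi1]; exact hi3
        have h5 : (1 : ℝ) ≤ ((winSet (σ t) (st σ t) k M r).card : ℝ) := by
          exact_mod_cast card_pos.2 ⟨_, h4⟩
        calc (((σ t).b : ℝ) ^ k)⁻¹ = 1 * (((σ t).b : ℝ) ^ k)⁻¹ := (one_mul _).symm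
          _ ≤ _ := mul_le_mul_of_nonneg_right h5 (by positivity)
      · positivity
    · intro m hm
      rw [sum_cycA]
      have h1 : 0 ≤ ∑ k' ∈ range (m + 1), (if 2 ≤ k' then ((badK m k').map
          (fun it => if k + M ≤ it.len + 1 then ((it.b : ℝ) ^ k)⁻¹ else 0)).sum else 0) := by
        apply sum_nonneg
        intro k' _
        split_ifs
        · exact list_sum_nonneg _ _ (fun it => by positivity)
        · exact le_rfl
      have h2 : ((fullItems (m + 2) (m + 1) 1 0).map
          (fun it => if k + M ≤ it.len + 1 then ((it.b : ℝ) ^ k)⁻¹ else 0)).sum =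
          ((m + 2 : ℕ) : ℝ) ^ (m + 1 - k) := by
        rw [sum_full]
        have h3 : ∀ w : Fin (m + 1) → ZMod (m + 2), (if k + M ≤ (mk (m + 2) (m + 1) 1 0 w).len + 1
            then ((((mk (m + 2) (m + 1) 1 0 w).b : ℕ) : ℝ) ^ k)⁻¹ else 0) =
            (((m + 2 : ℕ) : ℝ) ^ k)⁻¹ := by
          intro w
          unfold mk
          rw [if_pos (by simp only; omega)]
        simp_rw [h3]
        rw [sum_const, card_words, nsmul_eq_mul]
        have h4 : ((m + 2 : ℕ) : ℝ) ^ (m + 1) = ((m + 2 : ℕ) : ℝ) ^ (m + 1 - k) *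
            ((m + 2 : ℕ) : ℝ) ^ k := by rw [← pow_add]; congr 1; omega
        have h5 : (0 : ℝ) < ((m + 2 : ℕ) : ℝ) := by positivity
        rw [Nat.cast_pow, h4]
        field_simp
      rw [h2]
      have h3 : (1 : ℝ) ≤ ((m + 2 : ℕ) : ℝ) ^ (m + 1 - k) := by
        apply one_le_pow₀
        exact_mod_cast (by omega : 1 ≤ m + 2)
      linarith
  · -- normality
    intro k hk B
    refine normal_test H hk B (max k (∑ i, B i)) (fun m hm => ?_) (fun m hm => ?_)
    · have h1 : k ≤ m := (le_max_left _ _).trans hm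
      have h2 : ∑ i, B i ≤ m := (le_max_right _ _).trans hm
      have hB : ∀ i, B i < m + 2 := fun i => by
        have := single_le_sum (f := B) (s := univ) (fun _ _ => Nat.zero_le _) (mem_univ i)
        omega
      rw [sum_cycA, sum_cycA, full_X, full_Y _ _ _ B hB]
      congr 1
      refine sum_congr rfl fun k' _ => ?_
      split_ifs
      · rw [sum_badK_blind (blind_X k), sum_badK_blind (blind_Y B), full_X, full_Y _ _ _ B hB]
      · rfl
    · have h1 : k ≤ m := (le_max_left _ _).trans hm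
      rw [sum_cycA, full_X]
      have h3 := one_le_full (m := m) (k := k) (by omega)
      have h4 : 0 ≤ ∑ k' ∈ range (m + 1), (if 2 ≤ k' then ((badK m k').map (Xf k)).sum else 0) := by
        apply sum_nonneg
        intro k' _
        split_ifs
        · exact X_nonneg _ _
        · exact le_rfl
      linarith
  · -- failure along progressions
    intro k r hk hrk hcon
    have hcon' := hcon (B0 k)
    obtain ⟨C, h1, h2, h3, h4⟩ := sandwich H (by omega : 1 ≤ k) (B0 k) k r
    obtain ⟨g1, g2⟩ := xx_growth H k k r (by omega) (Lo k r) (Lo_nonneg k r)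
      (fun t => Lo_le H.good k r t) k (fun m hm => one_le_Lo hk hm hrk)
    obtain ⟨n0, hn0⟩ := Filter.eventually_atTop.1 (H.hμ.eventually_ge_atTop k)
    rcases Nat.eq_zero_or_pos r with rfl | hr
    · refine ratio_big H.hν g1 g2 (y := yy σ A (B0 k) k 0)
        (∑ n ∈ range n0, |((cycA (μ n)).map (fun it => YLo k it - 4 / 3 * XUp k it)).sum|)
        h1 h3 h4 ?_ hcon'
      intro N
      have h5 := bounded_below (fun n =>
        ((cycA (μ n)).map (fun it => YLo k it - 4 / 3 * XUp k it)).sum) n0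
        (fun n hn => cyc_big hk (hn0 n hn)) N
      rw [← H.sums, sum_sub_distrib, ← mul_sum] at h5
      have h6 : ∑ t ∈ range (A N), YLo k (σ t) ≤ yy σ A (B0 k) k 0 N :=
        sum_le_sum fun t _ => YLo_le H.good k t
      have h7 : xx σ A k k 0 N ≤ ∑ t ∈ range (A N), XUp k (σ t) :=
        sum_le_sum fun t _ => le_XUp H.good k t
      linarith
    · refine ratio_small H.hν g1 g2 (y := yy σ A (B0 k) k r)
        (∑ n ∈ range n0, |((cycA (μ n)).map (fun it => 1 / 2 * Lo k r it - YUp k r it)).sum|)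
        h2 h3 ?_ hcon'
      intro N
      have h5 := bounded_below (fun n =>
        ((cycA (μ n)).map (fun it => 1 / 2 * Lo k r it - YUp k r it)).sum) n0
        (fun n hn => cyc_small hk (hn0 n hn) hr hrk) N
      rw [← H.sums, sum_sub_distrib, ← mul_sum] at h5
      have h6 : yy σ A (B0 k) k r N ≤ ∑ t ∈ range (A N), YUp k r (σ t) :=
        sum_le_sum fun t _ => le_YUp H.good k r t
      have h7 : ∑ t ∈ range (A N), Lo k r (σ t) ≤ xx σ A k k r N :=
        sum_le_sum fun t _ => Lo_le H.good k r t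
      linarith

end Pool.Agent.R485.Cantor
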