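import Pool.Agent.R485.Cantor.QSeq

set_option autoImplicit false

namespace Pool.Agent.R485.Cantor

open Filter Topology Finset

open Classical in
/-- odd windows of two low places -/
noncomputable def Vset (n : ℕ) : Finset ℕ :=
  (Icc 1 n).filter (fun i => i % 2 = 1 ∧ Low i ∧ Low (i + 1))

lemma Vset_card (n : ℕ) :
    (Vset n).card ≤ (Nat.sqrt (Nat.sqrt n) + 1) * bb (Nat.sqrt n) := by
  classical
  set v := Nat.sqrt (Nat.sqrt n) with hv
  have hsub : Vset n ⊆ (range (v + 1)).biUnion (fun u => Icc (u ^ 4 + 1) (u ^ 4 + bb (u ^ 2))) := by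
    intro i hi
    unfold Vset at hi
    rw [mem_filter, mem_Icc] at hi
    obtain ⟨u, hu, h1, h2⟩ := odd_low hi.2.1 hi.2.2.1 hi.2.2.2
    rw [mem_biUnion]
    refine ⟨u, ?_, mem_Icc.2 ⟨h1, h2⟩⟩
    rw [mem_range, Nat.lt_succ_iff, hv, Nat.le_sqrt', Nat.le_sqrt']
    have : (u ^ 2) ^ 2 = u ^ 4 := by ring
    omega
  refine (card_le_card hsub).trans (card_biUnion_le.trans ?_)
  calc ∑ u ∈ range (v + 1), (Icc (u ^ 4 + 1) (u ^ 4 + bb (u ^ 2))).card
      ≤ ∑ u ∈ range (v + 1), bb (Nat.sqrt n) := by
        apply sum_le_sum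
        intro u hu
        rw [mem_range, Nat.lt_succ_iff, hv, Nat.le_sqrt'] at hu
        rw [Nat.card_Icc]
        have := bb_mono hu
        omega
    _ = (v + 1) * bb (Nat.sqrt n) := by rw [sum_const, card_range, smul_eq_mul]

lemma sum_half (s : Finset ℕ) : ∑ i ∈ s, ((1 : ℝ) / 2) ^ i ≤ 2 := by
  have := sum_le_hasSum (f := fun i : ℕ => ((1 : ℝ) / 2) ^ i) s (fun i _ => by positivity)
    hasSum_geometric_two
  exact this

lemma weight_odd_le (n : ℕ) : weight qq 2 2 1 n ≤ (Vset n).card + 2 := by
  classical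
  unfold weight
  have h1 : ∀ i ∈ (Icc 1 n).filter (fun i => i % 2 = 1), (∏ j ∈ range 2, (qq (i + j) : ℝ))⁻¹ ≤
      (if Low i ∧ Low (i + 1) then 1 else 0) + (1 / 2) ^ i := by
    intro i hi
    have hq0 : (1 : ℝ) ≤ qq i := by
      have := (bb_two _).trans (bb_le_qq i)
      exact_mod_cast (by omega : 1 ≤ qq i)
    have hq1 : (1 : ℝ) ≤ qq (i + 1) := by
      have := (bb_two _).trans (bb_le_qq (i + 1))
      exact_mod_cast (by omega : 1 ≤ qq (i + 1))
    have hprod : ∏ j ∈ range 2, (qq (i + j) : ℝ) = qq i * qq (i + 1) := by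
      rw [prod_range_succ, prod_range_one, add_zero]
    rw [hprod]
    split_ifs with h
    · have h2 : ((qq i : ℝ) * qq (i + 1))⁻¹ ≤ 1 := by
        apply inv_le_one_of_one_le₀
        nlinarith
      have h3 : (0 : ℝ) ≤ (1 / 2) ^ i := by positivity
      linarith
    · rw [zero_add]
      have h2 : (2 : ℝ) ^ i ≤ qq i * qq (i + 1) := by
        rw [not_and_or] at h
        rcases h with h | h
        · have h4 := two_pow_le_of_not_low h
          have h5 : (2 : ℝ) ^ (i + 1) ≤ qq i := by exact_mod_cast h4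
          have h6 : (2 : ℝ) ^ i ≤ 2 ^ (i + 1) := pow_le_pow_right₀ (by norm_num) (by omega)
          nlinarith
        · have h4 := two_pow_le_of_not_low h
          have h5 : (2 : ℝ) ^ (i + 1 + 1) ≤ qq (i + 1) := by exact_mod_cast h4
          have h6 : (2 : ℝ) ^ i ≤ 2 ^ (i + 1 + 1) := pow_le_pow_right₀ (by norm_num) (by omega)
          nlinarith
      rw [one_div, inv_pow]
      exact inv_anti₀ (by positivity) h2
  refine (sum_le_sum h1).trans ?_
  rw [sum_add_distrib]
  apply add_le_add _ (sum_half _)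
  rw [← sum_filter, filter_filter, sum_const, nsmul_eq_mul, mul_one]
  exact_mod_cast le_rfl

lemma weight_even_ge (n : ℕ) :
    ((Nat.sqrt n : ℝ) - Nat.sqrt (Nat.sqrt n) - 1) / (bb (Nat.sqrt n) : ℝ) ^ 2 ≤
      weight qq 2 2 0 n := by
  classical
  set m := Nat.sqrt n with hm
  set T := (range m).filter (fun t => ¬ ∃ u, t = u ^ 2) with hT
  have hTc : m ≤ T.card + (Nat.sqrt m + 1) := by
    have h1 : range m ⊆ T ∪ (range (Nat.sqrt m + 1)).image (fun u => u ^ 2) := by
      intro t ht
      rw [mem_union]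
      by_cases h : ∃ u, t = u ^ 2
      · right
        obtain ⟨u, rfl⟩ := h
        rw [mem_image]
        refine ⟨u, ?_, rfl⟩
        rw [mem_range] at ht ⊢
        rw [Nat.lt_succ_iff, Nat.le_sqrt']
        omega
      · left
        rw [hT, mem_filter]
        exact ⟨ht, h⟩
    have h2 := (card_le_card h1).trans (card_union_le _ _)
    rw [card_range] at h2
    have h3 : ((range (Nat.sqrt m + 1)).image (fun u => u ^ 2)).card ≤ Nat.sqrt m + 1 :=
      card_image_le.trans (card_range _).le
    omega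
  have hss : Set.InjOn ss (T : Set ℕ) := by
    intro a ha b hb hab
    rw [mem_coe, hT, mem_filter] at ha hb
    have ha2 : 2 ≤ a := by
      by_contra h
      have : a = 0 ∨ a = 1 := by omega
      rcases this with rfl | rfl
      · exact ha.2 ⟨0, by norm_num⟩
      · exact ha.2 ⟨1, by norm_num⟩
    have hb2 : 2 ≤ b := by
      by_contra h
      have : b = 0 ∨ b = 1 := by omega
      rcases this with rfl | rfl
      · exact hb.2 ⟨0, by norm_num⟩
      · exact hb.2 ⟨1, by norm_num⟩
    obtain ⟨h3, h4⟩ := ss_bounds a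
    obtain ⟨h5, h6⟩ := ss_bounds b
    have h7 : (a + 1) ^ 2 = a ^ 2 + 2 * a + 1 := by ring
    have h8 : (b + 1) ^ 2 = b ^ 2 + 2 * b + 1 := by ring
    have e1 : Nat.sqrt (ss a) = a := sqrt_eq (by omega) (by omega)
    have e2 : Nat.sqrt (ss b) = b := sqrt_eq (by omega) (by omega)
    rw [← e1, ← e2, hab]
  have hbm : (0 : ℝ) < bb m := by
    have := bb_two m
    exact_mod_cast (by omega : 0 < bb m)
  unfold weight
  calc ((m : ℝ) - Nat.sqrt m - 1) / (bb m : ℝ) ^ 2 ≤ (T.card : ℝ) / (bb m : ℝ) ^ 2 := by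
        apply div_le_div_of_nonneg_right _ (by positivity)
        have : (m : ℝ) ≤ T.card + (Nat.sqrt m + 1) := by exact_mod_cast hTc
        linarith
    _ = ∑ t ∈ T, ((bb m : ℝ) ^ 2)⁻¹ := by
        rw [sum_const, nsmul_eq_mul, div_eq_mul_inv]
    _ ≤ ∑ t ∈ T, (∏ j ∈ range 2, (qq (ss t + j) : ℝ))⁻¹ := by
        apply sum_le_sum
        intro t ht
        rw [hT, mem_filter, mem_range] at ht
        obtain ⟨h1, h2⟩ := main_q ht.2
        rw [prod_range_succ, prod_range_one, add_zero, h1, h2, ← sq]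
        have h3 : (bb t : ℝ) ≤ bb m := by exact_mod_cast bb_mono ht.1.le
        have h4 : (0 : ℝ) < bb t := by
          have := bb_two t
          exact_mod_cast (by omega : 0 < bb t)
        exact inv_anti₀ (by positivity) (by gcongr)
    _ = ∑ i ∈ T.image ss, (∏ j ∈ range 2, (qq (i + j) : ℝ))⁻¹ := by rw [sum_image hss]
    _ ≤ ∑ i ∈ (Icc 1 n).filter (fun i => i % 2 = 0), (∏ j ∈ range 2, (qq (i + j) : ℝ))⁻¹ := by
        apply sum_le_sum_of_subset_of_nonneg
        · intro i hi
          rw [mem_image] at hi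
          obtain ⟨t, ht, rfl⟩ := hi
          rw [hT, mem_filter, mem_range] at ht
          have ht1 : 1 ≤ t := by
            by_contra h
            have : t = 0 := by omega
            subst this
            exact ht.2 ⟨0, by norm_num⟩
          obtain ⟨h3, h4⟩ := ss_bounds t
          rw [mem_filter, mem_Icc]
          refine ⟨⟨by omega, ?_⟩, by unfold ss; omega⟩
          have h5 : (t + 1) ^ 2 ≤ m ^ 2 := Nat.pow_le_pow_left (by omega) 2
          have h6 : m ^ 2 ≤ n := Nat.sqrt_le' n
          have h7 : (t + 1) ^ 2 = t ^ 2 + 2 * t + 1 := by ring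
          omega
        · intro i _ _
          positivity

lemma bb_le_log {m : ℕ} (hm : 3 ≤ m) : (bb m : ℝ) ≤ 4 * Real.log m := by
  have hu0 : (0 : ℝ) < m := by exact_mod_cast (by omega : 0 < m)
  have hlog : 1 ≤ Real.log m := by
    rw [Real.le_log_iff_exp_le hu0]
    have := Real.exp_one_lt_d9
    have h5 : (3 : ℝ) ≤ m := by exact_mod_cast hm
    linarith
  unfold bb
  push_cast
  have h6 : (Nat.log 2 m : ℝ) ≤ Real.log (m : ℝ) / Real.log 2 := by
    have := Real.natLog_le_logb m 2
    rw [Real.logb] at this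
    push_cast at this
    exact this
  have h7 : (0.69 : ℝ) < Real.log 2 := by
    have := Real.log_two_gt_d9
    linarith
  have h8 : Real.log m / Real.log 2 ≤ 2 * Real.log m := by
    rw [div_le_iff₀ (by linarith)]
    nlinarith
  linarith

/-- the odd windows of low places are negligible -/
lemma tendsto_ratio (C : ℝ) (hC : 0 ≤ C) :
    Tendsto (fun n : ℕ => (((Vset n).card : ℝ) + C) / weight qq 2 2 0 n) atTop (𝓝 0) := by
  -- the bound as a function of `m = √n`
  have hlim : Tendsto (fun x : ℝ => Real.log x ^ 3 / x) atTop (𝓝 0) := by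
    have h := (Real.isLittleO_pow_log_id_atTop (n := 3)).tendsto_div_nhds_zero
    exact h
  have hlim2 : Tendsto (fun m : ℕ => (64 * (2 + C)) * 16 * (Real.log (Real.sqrt m) ^ 3 / Real.sqrt m))
      atTop (𝓝 0) := by
    have h1 : Tendsto (fun m : ℕ => Real.sqrt (m : ℝ)) atTop atTop :=
      Real.tendsto_sqrt_atTop.comp tendsto_natCast_atTop_atTop
    have h2 := (hlim.comp h1).const_mul ((64 * (2 + C)) * 16)
    simpa using h2
  have hlim3 := hlim2.comp tendsto_sqrt
  refine squeeze_zero' ?_ ?_ hlim3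
  · filter_upwards with n
    apply div_nonneg (by positivity)
    unfold weight
    positivity
  · filter_upwards [tendsto_sqrt.eventually_ge_atTop 16] with n hn
    simp only [Function.comp_apply]
    set m := Nat.sqrt n with hm
    have hm0 : (16 : ℝ) ≤ m := by exact_mod_cast hn
    have hL1 := bb_le_log (m := m) (by omega)
    have hlog : 1 ≤ Real.log m := by
      rw [Real.le_log_iff_exp_le (by linarith)]
      have := Real.exp_one_lt_d9
      linarith
    set L := Real.log m with hL
    set s := Real.sqrt (m : ℝ) with hs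
    have hs2 : s ^ 2 = m := Real.sq_sqrt (by positivity)
    have hs4 : 4 ≤ s := by
      rw [hs, Real.le_sqrt (by norm_num) (by positivity)]
      linarith
    have hv : (Nat.sqrt m : ℝ) ≤ s := Real.nat_sqrt_le_real_sqrt
    have hlogs : Real.log s = L / 2 := by
      rw [hs, Real.log_sqrt (by positivity)]
    have hbb0 : (0 : ℝ) < bb m := by
      have := bb_two m
      exact_mod_cast (by omega : 0 < bb m)
    have hW := weight_even_ge n
    rw [← hm] at hW
    have hW2 : s ^ 2 / 2 / (4 * L) ^ 2 ≤ weight qq 2 2 0 n := by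
      refine le_trans ?_ hW
      calc s ^ 2 / 2 / (4 * L) ^ 2 ≤ s ^ 2 / 2 / (bb m : ℝ) ^ 2 := by gcongr
        _ ≤ ((m : ℝ) - Nat.sqrt m - 1) / (bb m : ℝ) ^ 2 := by
            apply div_le_div_of_nonneg_right _ (by positivity)
            nlinarith
    have hV : (((Vset n).card : ℝ) + C) ≤ (2 + C) * s * (4 * L) := by
      have h1 : ((Vset n).card : ℝ) ≤ (Nat.sqrt m + 1) * bb m := by
        exact_mod_cast Vset_card n
      have h2 : ((Nat.sqrt m : ℝ) + 1) * bb m ≤ (2 * s) * (4 * L) := by
        apply mul_le_mul _ hL1 hbb0.le (by positivity)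
        linarith
      have h3 : C ≤ C * s * (4 * L) := by
        have : 1 ≤ s * (4 * L) := by nlinarith
        nlinarith
      nlinarith
    have hpos : 0 < s ^ 2 / 2 / (4 * L) ^ 2 := by positivity
    calc (((Vset n).card : ℝ) + C) / weight qq 2 2 0 n
        ≤ ((2 + C) * s * (4 * L)) / (s ^ 2 / 2 / (4 * L) ^ 2) := by gcongr
      _ = 64 * (2 + C) * 16 * (Real.log s ^ 3 / s) := by
          rw [hlogs]
          field_simp
          ring

lemma weight_split (n : ℕ) : weight qq 2 1 0 n = weight qq 2 2 0 n + weight qq 2 2 1 n := by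
  unfold weight
  rw [← sum_union]
  · apply sum_congr _ (fun _ _ => rfl)
    ext i
    simp only [mem_filter, mem_union, mem_Icc]
    omega
  · rw [disjoint_filter]
    intro i _ h1 h2
    omega

lemma count_split (x : ℝ) {k : ℕ} (B : Fin k → ℕ) (n : ℕ) :
    count qq x B 1 0 n = count qq x B 2 0 n + count qq x B 2 1 n := by
  classical
  unfold count
  rw [← card_union_of_disjoint]
  · congr 1
    ext i
    simp only [mem_filter, mem_union, mem_Icc]
    constructor
    · rintro ⟨h1, -, h2⟩
      rcases Nat.mod_two_eq_zero_or_one i with h | h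
      · exact Or.inl ⟨h1, h, h2⟩
      · exact Or.inr ⟨h1, h, h2⟩
    · rintro (⟨h1, -, h2⟩ | ⟨h1, -, h2⟩)
      · exact ⟨h1, Nat.mod_one _, h2⟩
      · exact ⟨h1, Nat.mod_one _, h2⟩
  · rw [disjoint_filter]
    intro i _ h1 h2
    omega

/-- if `x` is normal of order two but not along the even places, then infinitely many digits at
places with a huge `q_p` are small -/
theorem small_digits (x : ℝ) (h1 : NormalOfOrder qq 2 x) (h2 : ¬ APNormal qq 2 2 0 x) :
    ∃ M : ℕ, ∃ᶠ p in atTop, p ∈ {p | 1 ≤ p ∧ ¬ Low p} ∧ digit qq x p ≤ M := by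
  classical
  by_contra hcon
  push Not at hcon
  apply h2
  intro B
  have h3 := hcon (max (B 0) (B 1))
  rw [Filter.eventually_atTop] at h3
  obtain ⟨p0, hp0⟩ := h3
  have hcnt : ∀ n, (count qq x B 2 1 n : ℝ) ≤ (Vset n).card + p0 := by
    intro n
    have hsub : (Icc 1 n).filter (fun i => i % 2 = 1 ∧ Occurs qq x B i) ⊆ Vset n ∪ range p0 := by
      intro i hi
      rw [mem_filter, mem_Icc] at hi
      obtain ⟨⟨hi1, hi2⟩, hi3, hi4⟩ := hi
      rw [mem_union, mem_range]
      by_cases hip : i < p0
      · exact Or.inr hip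
      left
      unfold Vset
      rw [mem_filter, mem_Icc]
      refine ⟨⟨hi1, hi2⟩, hi3, ?_, ?_⟩
      · by_contra hL
        have h4 := hp0 i (by omega) ⟨hi1, hL⟩
        have h5 := hi4 0
        simp only [Fin.val_zero, add_zero] at h5
        rw [h5] at h4
        push_cast at h4
        simp at h4
      · by_contra hL
        have h4 := hp0 (i + 1) (by omega) ⟨by omega, hL⟩
        have h5 := hi4 1
        simp only [Fin.val_one] at h5
        rw [h5] at h4
        push_cast at h4
        simp at h4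
    have h6 := (card_le_card hsub).trans (card_union_le _ _)
    rw [card_range] at h6
    unfold count
    have h7 : (((Icc 1 n).filter (fun i => i % 2 = 1 ∧ Occurs qq x B i)).card : ℝ) ≤
        (((Vset n).card + p0 : ℕ) : ℝ) := by exact_mod_cast h6
    push_cast at h7
    convert h7
  have hW0 : Tendsto (weight qq 2 2 0) atTop atTop := divI 2 2 0 (by norm_num) (by norm_num) (by norm_num)
  -- ratios
  have r1 : Tendsto (fun n => (count qq x B 2 1 n : ℝ) / weight qq 2 2 0 n) atTop (𝓝 0) := by
    refine squeeze_zero' ?_ ?_ (tendsto_ratio p0 (Nat.cast_nonneg _))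
    · filter_upwards [hW0.eventually_gt_atTop 0] with n hn
      positivity
    · filter_upwards [hW0.eventually_gt_atTop 0] with n hn
      exact div_le_div_of_nonneg_right (hcnt n) hn.le
  have r2 : Tendsto (fun n => weight qq 2 2 1 n / weight qq 2 2 0 n) atTop (𝓝 0) := by
    refine squeeze_zero' ?_ ?_ (tendsto_ratio 2 (by norm_num))
    · filter_upwards [hW0.eventually_gt_atTop 0] with n hn
      apply div_nonneg _ hn.le
      unfold weight
      positivity
    · filter_upwards [hW0.eventually_gt_atTop 0] with n hn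
      exact div_le_div_of_nonneg_right (weight_odd_le n) hn.le
  have r3 : Tendsto (fun n => ((count qq x B 1 0 n : ℝ) / weight qq 2 1 0 n) *
      (1 + weight qq 2 2 1 n / weight qq 2 2 0 n) -
        (count qq x B 2 1 n : ℝ) / weight qq 2 2 0 n) atTop (𝓝 1) := by
    have := ((h1 B).mul (r2.const_add 1)).sub r1
    simpa using this
  refine r3.congr' ?_
  filter_upwards [hW0.eventually_gt_atTop 0] with n hn
  have hW1 : 0 ≤ weight qq 2 2 1 n := by unfold weight; positivity
  have e1 := weight_split n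
  have e2 := count_split x B n
  have hW : 0 < weight qq 2 1 0 n := by rw [e1]; linarith
  have e3 : (1 + weight qq 2 2 1 n / weight qq 2 2 0 n) = weight qq 2 1 0 n / weight qq 2 2 0 n := by
    rw [e1]; field_simp
  rw [e3, e2]
  push_cast
  field_simp
  ring

end Pool.Agent.R485.Cantor
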