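import Pool.Agent.R485.Cantor.Sched

set_option autoImplicit false

namespace Pool.Agent.R485.Cantor

open Filter Topology Finset

/-- the conditions on the cycles of items -/
structure Cyc (cyc : ℕ → List Item) (β : ℕ → ℕ) : Prop where
  /-- the cycles are not empty -/
  ne : ∀ m, cyc m ≠ []
  /-- the bases grow -/
  hβ : ∀ m, m + 2 ≤ β m
  /-- the bases -/
  hb : ∀ m, ∀ it ∈ cyc m, it.b = β m
  /-- the digits -/
  hw : ∀ m, ∀ it ∈ cyc m, ∀ a, it.w a < it.b
  /-- the moduli -/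
  hmd : ∀ m, ∀ it ∈ cyc m, 1 ≤ it.md ∧ it.md ≤ m + 1
  /-- the residues -/
  hrs : ∀ m, ∀ it ∈ cyc m, it.rs < it.md
  /-- the lengths -/
  hlen : ∀ m, ∀ it ∈ cyc m, 1 ≤ it.len ∧ it.len ≤ m + 1

/-- the size of a cycle -/
def sizeC (cyc : ℕ → List Item) (m : ℕ) : ℕ := ((cyc m).map (fun it => it.len + 1)).sum

lemma sizeC_two {cyc : ℕ → List Item} {β : ℕ → ℕ} (h : Cyc cyc β) (m : ℕ) : 2 ≤ sizeC cyc m := by
  unfold sizeC
  rcases hc : cyc m with _ | ⟨a, l⟩
  · exact absurd hc (h.ne m)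
  · rw [List.map_cons, List.sum_cons]
    have := (h.hlen m a (by rw [hc]; exact List.mem_cons_self)).1
    omega

lemma sum_le_sizeC {cyc : ℕ → List Item} (F : Item → ℝ) (m : ℕ)
    (hF : ∀ it ∈ cyc m, F it ≤ it.len) : ((cyc m).map F).sum ≤ sizeC cyc m := by
  unfold sizeC
  have : ∀ l : List Item, (∀ it ∈ l, F it ≤ it.len) →
      (l.map F).sum ≤ (((l.map (fun it => it.len + 1)).sum : ℕ) : ℝ) := by
    intro l
    induction l with
    | nil => simp
    | cons a l ih =>
      intro hl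
      rw [List.map_cons, List.sum_cons, List.map_cons, List.sum_cons]
      push_cast
      have h1 := hl a List.mem_cons_self
      have h2 := ih (fun it hit => hl it (List.mem_cons_of_mem _ hit))
      push_cast at h2
      linarith
  exact this _ hF

/-- everything we need about the construction -/
structure Real_ (cyc : ℕ → List Item) (σ : ℕ → Item) (A μ ν : ℕ → ℕ) (x : ℝ) : Prop where
  /-- the items are good -/
  good : Good σ
  /-- the digits of `x` -/
  dig : ∀ n, 1 ≤ n → digit (qS σ) x n = eS σ n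
  /-- monotone -/
  mono : StrictMono A
  /-- the indices of the cycles -/
  hμ : Tendsto μ atTop atTop
  /-- slow growth -/
  slow : ∀ n, μ n * sizeC cyc (μ n) ≤ n
  /-- the number of completed cycles -/
  hν : Tendsto ν atTop atTop
  /-- the number of completed cycles -/
  hν2 : ∀ n, A (ν n) ≤ Nat.sqrt n ∧ Nat.sqrt n < A (ν n + 1)
  /-- membership -/
  mem : ∀ t, ∃ m, σ t ∈ cyc m
  /-- sums over complete cycles -/
  sums : ∀ (F : Item → ℝ) (N : ℕ), ∑ t ∈ range (A N), F (σ t) =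
    ∑ n ∈ range N, ((cyc (μ n)).map F).sum

theorem realize {cyc : ℕ → List Item} {β : ℕ → ℕ} (h : Cyc cyc β) :
    ∃ σ A μ ν x, Real_ cyc σ A μ ν x := by
  obtain ⟨μ, hμ, hslow⟩ := exists_slow (sizeC cyc)
  obtain ⟨σ, A, ι, hA, hA0, hι, hιt, hmem, hsum⟩ :=
    concat (⟨2, 1, 1, 0, fun _ => 0⟩ : Item) (fun n => cyc (μ n)) (fun n => h.ne _)
  have hgood : Good σ := by
    refine ⟨fun t => ?_, ?_, fun t a => h.hw _ _ (hmem t) a, fun t => (h.hmd _ _ (hmem t)).1,
      fun t => h.hrs _ _ (hmem t), ?_⟩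
    · rw [h.hb _ _ (hmem t)]
      have := h.hβ (μ (ι t))
      omega
    · have h1 : Tendsto (fun t => μ (ι t)) atTop atTop := hμ.comp hιt
      apply tendsto_atTop_mono _ h1
      intro t
      rw [h.hb _ _ (hmem t)]
      have := h.hβ (μ (ι t))
      omega
    · have h1 : Tendsto (fun t => μ (ι t)) atTop atTop := hμ.comp hιt
      filter_upwards [h1.eventually_ge_atTop 1] with t ht
      have h2 := (h.hmd _ _ (hmem t)).2
      have h3 := (h.hlen _ _ (hmem t)).2
      have h4 := hslow (ι t)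
      have h5 := sizeC_two h (μ (ι t))
      have h6 : ι t ≤ A (ι t) := hA.id_le _
      have h7 := (hι t).1
      have h8 : μ (ι t) * 2 ≤ μ (ι t) * sizeC cyc (μ (ι t)) := Nat.mul_le_mul_left _ h5
      omega
  obtain ⟨x, hx⟩ := exists_real_S hgood
  refine ⟨σ, A, μ, fun n => ι (Nat.sqrt n), x, hgood, hx, hA, hμ, hslow, hιt.comp tendsto_sqrt,
    fun n => hι (Nat.sqrt n), fun t => ⟨_, hmem t⟩, hsum⟩

section tests

variable {cyc : ℕ → List Item} {σ : ℕ → Item} {A μ ν : ℕ → ℕ} {x : ℝ}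

/-- the number of occurrences of a block up to the end of the `N`-th cycle -/
def yy (σ : ℕ → Item) (A : ℕ → ℕ) {k : ℕ} (B : Fin k → ℕ) (m r N : ℕ) : ℝ :=
  ∑ t ∈ range (A N), ((occSet (σ t) (st σ t) B m r).card : ℝ)

/-- the weight up to the end of the `N`-th cycle -/
noncomputable def xx (σ : ℕ → Item) (A : ℕ → ℕ) (k m r N : ℕ) : ℝ :=
  ∑ t ∈ range (A N), ((winSet (σ t) (st σ t) k m r).card : ℝ) * (((σ t).b : ℝ) ^ k)⁻¹

lemma sandwich (H : Real_ cyc σ A μ ν x) {k : ℕ} (hk : 1 ≤ k) (B : Fin k → ℕ) (m r : ℕ) :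
    ∃ C : ℝ, (∀ n, yy σ A B m r (ν n) - C ≤ count (qS σ) x B m r n) ∧
      (∀ n, (count (qS σ) x B m r n : ℝ) ≤ yy σ A B m r (ν n + 1) + C) ∧
      (∀ n, xx σ A k m r (ν n) - C ≤ weight (qS σ) k m r n) ∧
      (∀ n, weight (qS σ) k m r n ≤ xx σ A k m r (ν n + 1) + C) := by
  obtain ⟨C1, h1⟩ := count_le (σ := σ) H.dig hk B m r
  obtain ⟨C2, h2⟩ := count_ge H.good H.dig hk B m r
  obtain ⟨C3, hC3, h3⟩ := weight_ge H.good hk m r
  refine ⟨C1 + C2 + C3 + 2, fun n => ?_, fun n => ?_, fun n => ?_, fun n => ?_⟩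
  · have h4 : yy σ A B m r (ν n) ≤ ∑ t ∈ range (Nat.sqrt n), ((occSet (σ t) (st σ t) B m r).card : ℝ) := by
      unfold yy
      apply sum_le_sum_of_subset_of_nonneg
      · exact range_subset_range.2 (H.hν2 n).1
      · intro t _ _; positivity
    have h5 : (∑ t ∈ range (Nat.sqrt n), ((occSet (σ t) (st σ t) B m r).card : ℝ)) ≤
        count (qS σ) x B m r n + C2 := by exact_mod_cast h2 n
    have : (0 : ℝ) ≤ C1 := Nat.cast_nonneg _
    linarith
  · have h4 : ∑ t ∈ range (Nat.sqrt n + 1), ((occSet (σ t) (st σ t) B m r).card : ℝ) ≤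
        yy σ A B m r (ν n + 1) := by
      unfold yy
      apply sum_le_sum_of_subset_of_nonneg
      · exact range_subset_range.2 (H.hν2 n).2
      · intro t _ _; positivity
    have h5 : (count (qS σ) x B m r n : ℝ) ≤
        (∑ t ∈ range (Nat.sqrt n + 1), ((occSet (σ t) (st σ t) B m r).card : ℝ)) + C1 := by
      exact_mod_cast h1 n
    have : (0 : ℝ) ≤ C2 := Nat.cast_nonneg _
    linarith
  · have h4 : xx σ A k m r (ν n) ≤ ∑ t ∈ range (Nat.sqrt n),
        ((winSet (σ t) (st σ t) k m r).card : ℝ) * (((σ t).b : ℝ) ^ k)⁻¹ := by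
      unfold xx
      apply sum_le_sum_of_subset_of_nonneg
      · exact range_subset_range.2 (H.hν2 n).1
      · intro t _ _; positivity
    have := h3 n
    have : (0 : ℝ) ≤ C1 := Nat.cast_nonneg _
    have : (0 : ℝ) ≤ C2 := Nat.cast_nonneg _
    linarith
  · have h4 : ∑ t ∈ range (Nat.sqrt n + 1),
        ((winSet (σ t) (st σ t) k m r).card : ℝ) * (((σ t).b : ℝ) ^ k)⁻¹ ≤
        xx σ A k m r (ν n + 1) := by
      unfold xx
      apply sum_le_sum_of_subset_of_nonneg
      · exact range_subset_range.2 (H.hν2 n).2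
      · intro t _ _; positivity
    have := weight_le H.good hk m r n
    have : (0 : ℝ) ≤ C1 := Nat.cast_nonneg _
    have : (0 : ℝ) ≤ C2 := Nat.cast_nonneg _
    linarith

/-- the lower functional gives linear growth; the steps are small -/
lemma xx_growth (H : Real_ cyc σ A μ ν x) (k m r : ℕ) (hk : 1 ≤ k) (Lo : Item → ℝ)
    (h0 : ∀ it, 0 ≤ Lo it)
    (hlo : ∀ t, Lo (σ t) ≤ ((winSet (σ t) (st σ t) k m r).card : ℝ) * (((σ t).b : ℝ) ^ k)⁻¹)
    (m0 : ℕ) (h1 : ∀ j, m0 ≤ j → 1 ≤ ((cyc j).map Lo).sum) :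
    Tendsto (xx σ A k m r) atTop atTop ∧
      Tendsto (fun N => xx σ A k m r (N + 1) / xx σ A k m r N) atTop (𝓝 1) := by
  obtain ⟨n0, hn0⟩ := Filter.eventually_atTop.1 (H.hμ.eventually_ge_atTop m0)
  refine small_step H.hμ H.slow n0 ?_ ?_ ?_
  · intro N
    have h2 : ∑ t ∈ range (A N), Lo (σ t) ≤ xx σ A k m r N := sum_le_sum fun t _ => hlo t
    rw [H.sums] at h2
    refine le_trans ?_ h2
    have h3 : ∀ n ∈ range N, (if n0 ≤ n then (1 : ℝ) else 0) ≤ ((cyc (μ n)).map Lo).sum := by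
      intro n _
      split_ifs with h
      · exact h1 _ (hn0 n h)
      · apply List.sum_nonneg
        intro a ha
        rw [List.mem_map] at ha
        obtain ⟨it, -, rfl⟩ := ha
        exact h0 it
    refine le_trans ?_ (sum_le_sum h3)
    rw [← sum_filter, sum_const, nsmul_eq_mul, mul_one]
    have h4 : N ≤ (filter (fun n => n0 ≤ n) (range N)).card + n0 := by
      have h5 : range N ⊆ (filter (fun n => n0 ≤ n) (range N)) ∪ range n0 := by
        intro n hn
        rw [mem_union, mem_filter]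
        by_cases h : n0 ≤ n
        · exact Or.inl ⟨hn, h⟩
        · right; rw [mem_range]; omega
      have h6 := (card_le_card h5).trans (card_union_le _ _)
      rwa [card_range, card_range] at h6
    have h7 : (N : ℝ) ≤ (filter (fun n => n0 ≤ n) (range N)).card + n0 := by exact_mod_cast h4
    linarith
  · intro N
    unfold xx
    apply sum_le_sum_of_subset_of_nonneg
    · exact range_subset_range.2 (H.mono.monotone (Nat.le_succ N))
    · intro t _ _; positivity
  · intro N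
    have hle : A N ≤ A (N + 1) := H.mono.monotone (Nat.le_succ N)
    have h2 : xx σ A k m r (N + 1) - xx σ A k m r N = ∑ t ∈ Ico (A N) (A (N + 1)),
        ((winSet (σ t) (st σ t) k m r).card : ℝ) * (((σ t).b : ℝ) ^ k)⁻¹ := by
      unfold xx
      rw [sum_Ico_eq_sub _ hle]
    have h3 : ∑ t ∈ Ico (A N) (A (N + 1)),
        ((winSet (σ t) (st σ t) k m r).card : ℝ) * (((σ t).b : ℝ) ^ k)⁻¹ ≤
        ∑ t ∈ Ico (A N) (A (N + 1)), ((σ t).len : ℝ) := by
      apply sum_le_sum
      intro t _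
      have h4 : (winSet (σ t) (st σ t) k m r).card ≤ (σ t).len := by
        unfold winSet
        refine (card_filter_le _ _).trans ?_
        rw [card_range]
        omega
      have h5 : (((σ t).b : ℝ) ^ k)⁻¹ ≤ 1 := by
        apply inv_le_one_of_one_le₀
        apply one_le_pow₀
        have := H.good.hb t
        exact_mod_cast (by omega : 1 ≤ (σ t).b)
      have h6 : ((winSet (σ t) (st σ t) k m r).card : ℝ) ≤ (σ t).len := by exact_mod_cast h4
      calc ((winSet (σ t) (st σ t) k m r).card : ℝ) * (((σ t).b : ℝ) ^ k)⁻¹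
          ≤ (σ t).len * 1 := by gcongr
        _ = (σ t).len := mul_one _
    have h4 : ∑ t ∈ Ico (A N) (A (N + 1)), ((σ t).len : ℝ) =
        ((cyc (μ N)).map (fun it => (it.len : ℝ))).sum := by
      rw [sum_Ico_eq_sub _ hle, H.sums (fun it => (it.len : ℝ)) (N + 1),
        H.sums (fun it => (it.len : ℝ)) N, sum_range_succ]
      ring
    rw [h2]
    refine h3.trans ?_
    rw [h4]
    exact sum_le_sizeC _ _ fun it _ => le_rfl

/-- the weight of the windows of length `k` in an item -/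
noncomputable def Xf (k : ℕ) (it : Item) : ℝ := ((it.len + 1 - k : ℕ) : ℝ) * ((it.b : ℝ) ^ k)⁻¹

/-- the number of occurrences of `B` in an item -/
def Yf {k : ℕ} (B : Fin k → ℕ) (it : Item) : ℝ := ((occSet it 0 B 1 0).card : ℝ)

lemma Xf_nonneg (k : ℕ) (it : Item) : 0 ≤ Xf k it := by unfold Xf; positivity

lemma occSet_one (it : Item) (s : ℕ) {k : ℕ} (B : Fin k → ℕ) : occSet it s B 1 0 = occSet it 0 B 1 0 := by
  unfold occSet
  simp [Nat.mod_one]

lemma winSet_one (it : Item) (s k : ℕ) : (winSet it s k 1 0).card = it.len + 1 - k := by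
  unfold winSet
  simp [Nat.mod_one]

lemma bounded_diff (f : ℕ → ℝ) (n0 : ℕ) (h : ∀ n, n0 ≤ n → f n = 0) (N : ℕ) :
    |∑ n ∈ range N, f n| ≤ ∑ n ∈ range n0, |f n| := by
  calc |∑ n ∈ range N, f n| ≤ ∑ n ∈ range N, |f n| := abs_sum_le_sum_abs _ _
    _ ≤ ∑ n ∈ range N ∪ range n0, |f n| :=
        sum_le_sum_of_subset_of_nonneg subset_union_left fun _ _ _ => abs_nonneg _
    _ = ∑ n ∈ range n0, |f n| := by
        symm
        apply sum_subset subset_union_right
        intro n _ hn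
        rw [mem_range, not_lt] at hn
        rw [h n hn, abs_zero]

/-- normality test -/
theorem normal_test (H : Real_ cyc σ A μ ν x) {k : ℕ} (hk : 1 ≤ k) (B : Fin k → ℕ) (m0 : ℕ)
    (hXY : ∀ j, m0 ≤ j → ((cyc j).map (Xf k)).sum = ((cyc j).map (Yf B)).sum)
    (hX : ∀ j, m0 ≤ j → 1 ≤ ((cyc j).map (Xf k)).sum) :
    Tendsto (fun n => (count (qS σ) x B 1 0 n : ℝ) / weight (qS σ) k 1 0 n) atTop (𝓝 1) := by
  obtain ⟨C, h1, h2, h3, h4⟩ := sandwich H hk B 1 0
  have hx : ∀ N, xx σ A k 1 0 N = ∑ n ∈ range N, ((cyc (μ n)).map (Xf k)).sum := by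
    intro N
    rw [← H.sums]
    unfold xx
    refine sum_congr rfl fun t _ => ?_
    rw [winSet_one]
    rfl
  have hy : ∀ N, yy σ A B 1 0 N = ∑ n ∈ range N, ((cyc (μ n)).map (Yf B)).sum := by
    intro N
    rw [← H.sums]
    unfold yy
    refine sum_congr rfl fun t _ => ?_
    rw [occSet_one]
    rfl
  obtain ⟨g1, g2⟩ := xx_growth H k 1 0 hk (Xf k) (Xf_nonneg k)
    (fun t => by rw [winSet_one]; exact le_rfl) m0 hX
  obtain ⟨n0, hn0⟩ := Filter.eventually_atTop.1 (H.hμ.eventually_ge_atTop m0)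
  refine ratio_one H.hν g1 g2
    (∑ n ∈ range n0, |((cyc (μ n)).map (Yf B)).sum - ((cyc (μ n)).map (Xf k)).sum|)
    h1 h2 h3 h4 ?_
  intro N
  rw [hx, hy, ← sum_sub_distrib]
  apply bounded_diff (fun n => ((cyc (μ n)).map (Yf B)).sum - ((cyc (μ n)).map (Xf k)).sum) n0
  intro n hn
  rw [hXY _ (hn0 n hn), sub_self]

end tests

end Pool.Agent.R485.Cantor
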