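import Mathlib

/-!
# Normality for Cantor series expansions

A basic sequence is a sequence `q_1, q_2, …` of integers `≥ 2` (the value `q 0` plays no role). The
`n`-th digit of the `Q`-Cantor series expansion `x = ⌊x⌋ + ∑ E_n / (q_1 ⋯ q_n)` of a real number `x`
is `E_n = ⌊q_1 ⋯ q_n x⌋ mod q_n`.
-/

set_option autoImplicit false

namespace Pool.Agent.R485.Cantor

open Filter Topology

/-- `q` is a basic sequence: `q_n ≥ 2` for all `n ≥ 1`. -/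
def Basic (q : ℕ → ℕ) : Prop := ∀ n, 1 ≤ n → 2 ≤ q n

/-- The product `q_1 q_2 ⋯ q_n`. -/
def prodTo (q : ℕ → ℕ) (n : ℕ) : ℕ := ∏ i ∈ Finset.Icc 1 n, q i

/-- The digit `E_n = ⌊q_1 ⋯ q_n x⌋ mod q_n` (`n ≥ 1`) of the `Q`-Cantor series expansion of `x`. -/
noncomputable def digit (q : ℕ → ℕ) (x : ℝ) (n : ℕ) : ℤ := ⌊(prodTo q n : ℝ) * x⌋ % (q n : ℤ)

/-- The block `B = (b_1, …, b_k)` of non-negative integers occurs in the expansion of `x` at the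
position `i`: `(E_i, …, E_{i+k-1}) = B`. -/
def Occurs (q : ℕ → ℕ) (x : ℝ) {k : ℕ} (B : Fin k → ℕ) (i : ℕ) : Prop :=
  ∀ j : Fin k, digit q x (i + j) = B j

open Classical in
/-- The number of positions `1 ≤ i ≤ n`, `i ≡ r (mod m)`, at which `B` occurs. -/
noncomputable def count (q : ℕ → ℕ) (x : ℝ) {k : ℕ} (B : Fin k → ℕ) (m r n : ℕ) : ℕ :=
  ((Finset.Icc 1 n).filter (fun i => i % m = r ∧ Occurs q x B i)).card

/-- The sum of `1 / (q_i q_{i+1} ⋯ q_{i+k-1})` over `1 ≤ i ≤ n`, `i ≡ r (mod m)`. -/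
noncomputable def weight (q : ℕ → ℕ) (k m r n : ℕ) : ℝ :=
  ∑ i ∈ (Finset.Icc 1 n).filter (fun i => i % m = r), (∏ j ∈ Finset.range k, (q (i + j) : ℝ))⁻¹

/-- `x` is `Q`-normal of order `k`: `N_n(B, x) / Q_n^{(k)} → 1` for every block `B` of length `k`. -/
def NormalOfOrder (q : ℕ → ℕ) (k : ℕ) (x : ℝ) : Prop :=
  ∀ B : Fin k → ℕ, Tendsto (fun n => (count q x B 1 0 n : ℝ) / weight q k 1 0 n) atTop (𝓝 1)

/-- `x` belongs to `N^AP_k(Q; m, r)`: `N_{n,m,r}(B, x) / Q^{(k)}_{n,m,r} → 1` for every block `B` of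
length `k`. -/
def APNormal (q : ℕ → ℕ) (k m r : ℕ) (x : ℝ) : Prop :=
  ∀ B : Fin k → ℕ, Tendsto (fun n => (count q x B m r n : ℝ) / weight q k m r n) atTop (𝓝 1)

/-- `Q` is fully divergent of type I: `Q^{(k)}_{n,m,r} → ∞` for all `k, m ≥ 1` and `0 ≤ r < m`. -/
def FullyDivergentI (q : ℕ → ℕ) : Prop :=
  ∀ k m r, 1 ≤ k → 1 ≤ m → r < m → Tendsto (weight q k m r) atTop atTop

end Pool.Agent.R485.Cantor
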