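import Pool.Agent.R485.Cantor.Defs

set_option autoImplicit false

namespace Pool.Agent.R485.Cantor

open Filter Topology MeasureTheory Finset
open scoped ENNReal NNReal

lemma prodTo_succ (q : ℕ → ℕ) (n : ℕ) : prodTo q (n + 1) = prodTo q n * q (n + 1) := by
  unfold prodTo
  rw [Finset.prod_Icc_succ_top (by omega)]

lemma prodTo_ge {q : ℕ → ℕ} (hq : Basic q) (n : ℕ) : 2 ^ n ≤ prodTo q n := by
  induction n with
  | zero => simp [prodTo]
  | succ n ih =>
    rw [prodTo_succ, pow_succ]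
    exact Nat.mul_le_mul ih (hq _ (by omega))

lemma prodTo_pos {q : ℕ → ℕ} (hq : Basic q) (n : ℕ) : 0 < prodTo q n :=
  lt_of_lt_of_le (by positivity) (prodTo_ge hq n)

/-- cylinder set -/
def Cyl (q : ℕ → ℕ) (p : ℕ) (z : ℤ) : Set ℝ := {x | ⌊(prodTo q p : ℝ) * x⌋ = z}

lemma ediam_cyl {q : ℕ → ℕ} (hq : Basic q) (p : ℕ) (z : ℤ) :
    Metric.ediam (Cyl q p z) ≤ ENNReal.ofReal (1 / prodTo q p) := by
  have hP : (0 : ℝ) < prodTo q p := by exact_mod_cast prodTo_pos hq p
  have hsub : Cyl q p z ⊆ Set.Icc ((z : ℝ) / prodTo q p) ((z + 1) / prodTo q p) := by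
    intro x hx
    have hx' : ⌊(prodTo q p : ℝ) * x⌋ = z := hx
    rw [Int.floor_eq_iff] at hx'
    constructor
    · rw [div_le_iff₀ hP]; linarith
    · rw [le_div_iff₀ hP]; linarith
  refine (Metric.ediam_mono hsub).trans ?_
  rw [Real.ediam_Icc]
  apply ENNReal.ofReal_le_ofReal
  rw [← sub_div]
  ring_nf
  exact le_rfl

/-- the index type of the cover -/
abbrev Idx (q : ℕ → ℕ) (S : Set ℕ) (M n : ℕ) : Type :=
  (p : {p : ℕ // n ≤ p ∧ p ∈ S}) × (Fin (prodTo q (p.1 - 1)) × Fin (M + 1))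

lemma hausdorff_zero {q : ℕ → ℕ} (hq : Basic q) (S : Set ℕ)
    (hS : ∀ p ∈ S, 1 ≤ p ∧ prodTo q (p - 1) ^ p ≤ q p) (M : ℕ) (a : ℤ) (d : ℝ) (hd : 0 < d) :
    μH[d] {x : ℝ | ((a : ℝ) ≤ x ∧ x < a + 1) ∧ ∃ᶠ p in atTop, p ∈ S ∧ digit q x p ≤ M} = 0 := by
  set F : Set ℝ := {x : ℝ | ((a : ℝ) ≤ x ∧ x < a + 1) ∧
    ∃ᶠ p in atTop, p ∈ S ∧ digit q x p ≤ M} with hF
  -- bound
  have key := Measure.hausdorffMeasure_le_liminf_tsum (β := ℕ) (ι := fun n => Idx q S M n)
    (l := atTop) d F (fun n => ENNReal.ofReal (1 / 2 ^ n)) ?_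
    (fun n i => Cyl q i.1.1 ((prodTo q i.1.1 : ℤ) * a + (q i.1.1 : ℤ) * (i.2.1 : ℕ) + (i.2.2 : ℕ)))
    ?_ ?_
  · -- the tail sums tend to zero
    refine le_antisymm (key.trans ?_) (zero_le)
    obtain ⟨N, hN⟩ := exists_nat_ge (2 / d)
    have hb : ∀ n, N ≤ n → ∑' i : Idx q S M n, Metric.ediam (Cyl q i.1.1
        ((prodTo q i.1.1 : ℤ) * a + (q i.1.1 : ℤ) * (i.2.1 : ℕ) + (i.2.2 : ℕ))) ^ d ≤
        ENNReal.ofReal ((M + 1) * 4 * (1 / 2) ^ n) := by
      intro n hn
      have h1 : ∀ (p : {p : ℕ // n ≤ p ∧ p ∈ S}),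
          ∑' j : Fin (prodTo q (p.1 - 1)) × Fin (M + 1), Metric.ediam (Cyl q p.1
        ((prodTo q p.1 : ℤ) * a + (q p.1 : ℤ) * (j.1 : ℕ) + (j.2 : ℕ))) ^ d ≤
          ENNReal.ofReal ((M + 1) * 2 * (1 / 2) ^ p.1) := by
        rintro ⟨p, hnp, hpS⟩
        obtain ⟨hp1, hp2⟩ := hS p hpS
        simp only
        obtain ⟨p', rfl⟩ : ∃ p', p = p' + 1 := ⟨p - 1, by omega⟩
        simp only [Nat.add_sub_cancel] at hp2 ⊢
        obtain ⟨A, hA⟩ : ∃ A : ℝ, A = (prodTo q p' : ℝ) := ⟨_, rfl⟩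
        have hA1 : (2 : ℝ) ^ p' ≤ A := by
          rw [hA]; exact_mod_cast prodTo_ge hq p'
        have hA0 : 0 < A := lt_of_lt_of_le (by positivity) hA1
        have hA2 : (1 : ℝ) ≤ A := le_trans (one_le_pow₀ (by norm_num)) hA1
        have hPp : A ^ (p' + 2) ≤ (prodTo q (p' + 1) : ℝ) := by
          rw [prodTo_succ]
          push_cast
          rw [← hA]
          have : (A : ℝ) ^ (p' + 1) ≤ q (p' + 1) := by
            rw [hA]; exact_mod_cast hp2
          calc A ^ (p' + 2) = A * A ^ (p' + 1) := by ring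
            _ ≤ A * q (p' + 1) := by gcongr
        have hterm : ∀ z : ℤ, Metric.ediam (Cyl q (p' + 1) z) ^ d ≤ ENNReal.ofReal (A⁻¹ ^ 2) := by
          intro z
          calc Metric.ediam (Cyl q (p' + 1) z) ^ d
              ≤ (ENNReal.ofReal (1 / prodTo q (p' + 1))) ^ d :=
                ENNReal.rpow_le_rpow (ediam_cyl hq _ _) hd.le
            _ = ENNReal.ofReal ((1 / prodTo q (p' + 1) : ℝ) ^ d) := by
                rw [ENNReal.ofReal_rpow_of_nonneg (by positivity) hd.le]
            _ ≤ ENNReal.ofReal (A⁻¹ ^ 2) := by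
                apply ENNReal.ofReal_le_ofReal
                have h3 : (1 / prodTo q (p' + 1) : ℝ) ≤ A⁻¹ ^ (p' + 2) := by
                  rw [one_div, inv_pow]
                  exact inv_anti₀ (by positivity) hPp
                calc (1 / prodTo q (p' + 1) : ℝ) ^ d ≤ (A⁻¹ ^ (p' + 2)) ^ d :=
                      Real.rpow_le_rpow (by positivity) h3 hd.le
                  _ = A⁻¹ ^ (((p' + 2 : ℕ) : ℝ) * d) := by
                      rw [← Real.rpow_natCast, ← Real.rpow_mul (by positivity)]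
                  _ ≤ A⁻¹ ^ (2 : ℝ) := by
                      apply Real.rpow_le_rpow_of_exponent_ge (by positivity)
                        (inv_le_one_of_one_le₀ hA2)
                      have h4 : 2 / d ≤ ((p' + 2 : ℕ) : ℝ) := by
                        refine hN.trans ?_
                        exact_mod_cast (by omega : N ≤ p' + 2)
                      rw [div_le_iff₀ hd] at h4
                      exact h4
                  _ = A⁻¹ ^ 2 := by norm_num
        rw [tsum_fintype]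
        calc ∑ j : Fin (prodTo q p') × Fin (M + 1), Metric.ediam (Cyl q (p' + 1)
              ((prodTo q (p' + 1) : ℤ) * a + (q (p' + 1) : ℤ) * (j.1 : ℕ) + (j.2 : ℕ))) ^ d
            ≤ ∑ j : Fin (prodTo q p') × Fin (M + 1), ENNReal.ofReal (A⁻¹ ^ 2) :=
              Finset.sum_le_sum fun j _ => hterm _
          _ = ((prodTo q p' * (M + 1) : ℕ) : ℝ≥0∞) * ENNReal.ofReal (A⁻¹ ^ 2) := by
              rw [Finset.sum_const, Finset.card_univ, Fintype.card_prod, Fintype.card_fin,
                Fintype.card_fin, nsmul_eq_mul]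
          _ = ENNReal.ofReal (((prodTo q p' * (M + 1) : ℕ) : ℝ) * A⁻¹ ^ 2) := by
              rw [ENNReal.ofReal_mul (by positivity), ENNReal.ofReal_natCast]
          _ ≤ ENNReal.ofReal ((M + 1) * 2 * (1 / 2) ^ (p' + 1)) := by
              apply ENNReal.ofReal_le_ofReal
              push_cast
              rw [← hA]
              have h5 : A * A⁻¹ ^ 2 = A⁻¹ := by field_simp
              have h6 : A⁻¹ ≤ (1 / 2) ^ p' := by
                rw [one_div, inv_pow]
                exact inv_anti₀ (by positivity) hA1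
              calc A * (M + 1) * A⁻¹ ^ 2 = (M + 1) * (A * A⁻¹ ^ 2) := by ring
                _ = (M + 1) * A⁻¹ := by rw [h5]
                _ ≤ (M + 1) * (1 / 2) ^ p' := by gcongr
                _ = (M + 1) * 2 * (1 / 2) ^ (p' + 1) := by rw [pow_succ]; ring
      rw [ENNReal.tsum_sigma']
      calc ∑' p : {p : ℕ // n ≤ p ∧ p ∈ S}, ∑' j : Fin (prodTo q (p.1 - 1)) × Fin (M + 1),
            Metric.ediam (Cyl q p.1
            ((prodTo q p.1 : ℤ) * a + (q p.1 : ℤ) * (j.1 : ℕ) + (j.2 : ℕ))) ^ d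
          ≤ ∑' p : {p : ℕ // n ≤ p ∧ p ∈ S}, ENNReal.ofReal ((M + 1) * 2 * (1 / 2) ^ p.1) :=
            ENNReal.tsum_le_tsum h1
        _ ≤ ∑' p : {p : ℕ // n ≤ p}, ENNReal.ofReal ((M + 1) * 2 * (1 / 2) ^ p.1) := by
            let f : {p : ℕ // n ≤ p ∧ p ∈ S} → {p : ℕ // n ≤ p} := fun p => ⟨p.1, p.2.1⟩
            have hf : Function.Injective f := by
              intro u v huv
              have : (f u).1 = (f v).1 := by rw [huv]
              exact Subtype.ext this
            exact ENNReal.tsum_comp_le_tsum_of_injective hf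
              (fun p => ENNReal.ofReal ((M + 1) * 2 * (1 / 2) ^ p.1))
        _ ≤ ∑' k : ℕ, ENNReal.ofReal ((M + 1) * 2 * (1 / 2) ^ (n + k)) := by
            let g : {p : ℕ // n ≤ p} → ℕ := fun p => p.1 - n
            have hg : Function.Injective g := by
              intro u v huv
              have h7 : u.1 - n = v.1 - n := huv
              have := u.2
              have := v.2
              exact Subtype.ext (by omega)
            refine le_trans (le_of_eq ?_) (ENNReal.tsum_comp_le_tsum_of_injective hg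
              (fun k => ENNReal.ofReal ((M + 1) * 2 * (1 / 2) ^ (n + k))))
            refine tsum_congr fun p => ?_
            have h8 : n + g p = p.1 := by
              have := p.2
              show n + (p.1 - n) = p.1
              omega
            rw [h8]
        _ = ENNReal.ofReal ((M + 1) * 4 * (1 / 2) ^ n) := by
            rw [← ENNReal.ofReal_tsum_of_nonneg]
            · congr 1
              have h9 : ∀ k : ℕ, ((M : ℝ) + 1) * 2 * (1 / 2) ^ (n + k) =
                  ((M + 1) * 2 * (1 / 2) ^ n) * (1 / 2) ^ k := by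
                intro k; rw [pow_add]; ring
              simp_rw [h9]
              rw [tsum_mul_left, tsum_geometric_two]
              ring
            · intro k; positivity
            · have h9 : ∀ k : ℕ, ((M : ℝ) + 1) * 2 * (1 / 2) ^ (n + k) =
                  ((M + 1) * 2 * (1 / 2) ^ n) * (1 / 2) ^ k := by
                intro k; rw [pow_add]; ring
              simp_rw [h9]
              exact summable_geometric_two.mul_left _
    have hlim : Tendsto (fun n : ℕ => ENNReal.ofReal (((M : ℝ) + 1) * 4 * (1 / 2) ^ n)) atTop (𝓝 0) := by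
      rw [← ENNReal.ofReal_zero]
      apply (ENNReal.continuous_ofReal.tendsto 0).comp
      have := (tendsto_pow_atTop_nhds_zero_of_lt_one (r := (1 / 2 : ℝ)) (by norm_num)
        (by norm_num)).const_mul (((M : ℝ) + 1) * 4)
      simpa using this
    rw [← hlim.liminf_eq]
    have hev : ∀ᶠ n in atTop, ∑' i : Idx q S M n, Metric.ediam (Cyl q i.1.1
        ((prodTo q i.1.1 : ℤ) * a + (q i.1.1 : ℤ) * (i.2.1 : ℕ) + (i.2.2 : ℕ))) ^ d ≤
        ENNReal.ofReal ((M + 1) * 4 * (1 / 2) ^ n) := by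
      filter_upwards [eventually_ge_atTop N] with n hn
      exact hb n hn
    exact Filter.liminf_le_liminf hev
  · rw [← ENNReal.ofReal_zero]
    apply (ENNReal.continuous_ofReal.tendsto 0).comp
    have := (tendsto_pow_atTop_nhds_zero_of_lt_one (r := (1 / 2 : ℝ)) (by norm_num)
      (by norm_num))
    refine this.congr fun n => ?_
    rw [one_div_pow]
  · refine Eventually.of_forall fun n i => (ediam_cyl hq _ _).trans ?_
    apply ENNReal.ofReal_le_ofReal
    apply one_div_le_one_div_of_le (by positivity)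
    have h1 : 2 ^ n ≤ prodTo q i.1.1 :=
      (Nat.pow_le_pow_right (by norm_num) i.1.2.1).trans (prodTo_ge hq _)
    exact_mod_cast h1
  · refine Eventually.of_forall fun n x hx => ?_
    obtain ⟨⟨hxa, hxb⟩, hfr⟩ := hx
    obtain ⟨p, hpn, hpS, hdig⟩ := (Filter.frequently_atTop.1 hfr) n
    obtain ⟨hp1, -⟩ := hS p hpS
    obtain ⟨p', rfl⟩ : ∃ p', p = p' + 1 := ⟨p - 1, by omega⟩
    have hqp : 0 < (q (p' + 1) : ℤ) := by
      have := hq (p' + 1) (by omega)
      omega
    set z := ⌊(prodTo q (p' + 1) : ℝ) * x⌋ with hz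
    -- z = P a + w, 0 ≤ w < P
    have hP : (0 : ℝ) < prodTo q (p' + 1) := by exact_mod_cast prodTo_pos hq (p' + 1)
    have hw0 : 0 ≤ z - (prodTo q (p' + 1) : ℤ) * a := by
      rw [sub_nonneg, hz, Int.le_floor]
      push_cast
      gcongr
    have hw1 : z - (prodTo q (p' + 1) : ℤ) * a < prodTo q (p' + 1) := by
      have : z < (prodTo q (p' + 1) : ℤ) * a + prodTo q (p' + 1) := by
        rw [hz, Int.floor_lt]
        push_cast
        nlinarith
      linarith
    set w := z - (prodTo q (p' + 1) : ℤ) * a with hw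
    have hdig' : w % (q (p' + 1) : ℤ) ≤ M := by
      have h1 : digit q x (p' + 1) = w % (q (p' + 1) : ℤ) := by
        unfold digit
        rw [← hz, hw]
        have : (prodTo q (p' + 1) : ℤ) * a = (q (p' + 1) : ℤ) * (prodTo q p' * a) := by
          rw [prodTo_succ]; push_cast; ring
        rw [this, Int.sub_mul_emod_self_left]
      rw [← h1]; exact hdig
    have hv0 : 0 ≤ w / (q (p' + 1) : ℤ) := Int.ediv_nonneg hw0 hqp.le
    have hv1 : w / (q (p' + 1) : ℤ) < prodTo q p' := by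
      apply Int.ediv_lt_of_lt_mul hqp
      have h2 : (prodTo q (p' + 1) : ℤ) = prodTo q p' * q (p' + 1) := by
        rw [prodTo_succ]; push_cast; ring
      rw [← h2]
      exact hw1
    have he0 : 0 ≤ w % (q (p' + 1) : ℤ) := Int.emod_nonneg _ hqp.ne'
    rw [Set.mem_iUnion]
    refine ⟨⟨⟨p' + 1, hpn, hpS⟩, ⟨(w / (q (p' + 1) : ℤ)).toNat, ?_⟩,
      ⟨(w % (q (p' + 1) : ℤ)).toNat, ?_⟩⟩, ?_⟩
    · simp only [Nat.add_sub_cancel]
      omega
    · omega
    · show ⌊(prodTo q (p' + 1) : ℝ) * x⌋ = _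
      simp only
      rw [Int.toNat_of_nonneg hv0, Int.toNat_of_nonneg he0, ← hz, add_assoc,
        Int.mul_ediv_add_emod, hw]
      ring

/-- The set of the `x` such that infinitely often the digit at a place with a huge `q_p` is at
most `M` has Hausdorff dimension zero. -/
theorem dimH_small_digits {q : ℕ → ℕ} (hq : Basic q) (S : Set ℕ)
    (hS : ∀ p ∈ S, 1 ≤ p ∧ prodTo q (p - 1) ^ p ≤ q p) :
    dimH {x : ℝ | ∃ M : ℕ, ∃ᶠ p in atTop, p ∈ S ∧ digit q x p ≤ M} = 0 := by
  have hsub : {x : ℝ | ∃ M : ℕ, ∃ᶠ p in atTop, p ∈ S ∧ digit q x p ≤ M} ⊆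
      ⋃ Ma : ℕ × ℤ, {x : ℝ | ((Ma.2 : ℝ) ≤ x ∧ x < Ma.2 + 1) ∧
        ∃ᶠ p in atTop, p ∈ S ∧ digit q x p ≤ Ma.1} := by
    rintro x ⟨M, hM⟩
    rw [Set.mem_iUnion]
    exact ⟨(M, ⌊x⌋), ⟨Int.floor_le x, Int.lt_floor_add_one x⟩, hM⟩
  refine le_antisymm ((dimH_mono hsub).trans ?_) (zero_le)
  rw [dimH_iUnion]
  refine iSup_le fun Ma => ?_
  refine ENNReal.le_of_forall_pos_le_add fun ε hε _ => ?_
  rw [zero_add]
  apply dimH_le_of_hausdorffMeasure_ne_top
  rw [hausdorff_zero hq S hS Ma.1 Ma.2 ε (by exact_mod_cast hε)]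
  exact ENNReal.zero_ne_top

end Pool.Agent.R485.Cantor
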