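import Pool.Agent.R485.Cantor.Cycle

set_option autoImplicit false

namespace Pool.Agent.R485.Cantor

open Filter Topology Finset

/-- the item with the given word -/
def mk (b L md rs : ℕ) (w : Fin L → ZMod b) : Item :=
  ⟨b, L, md, rs, fun i => if h : i < L then (w ⟨i, h⟩).val else 0⟩

/-- all words -/
noncomputable def fullItems (b L md rs : ℕ) [NeZero b] : List Item :=
  ((univ : Finset (Fin L → ZMod b)).toList).map (mk b L md rs)

/-- all words with sum zero -/
noncomputable def zeroItems (b L md rs : ℕ) [NeZero b] : List Item :=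
  ((univ.filter (fun w : Fin L → ZMod b => ∑ i, w i = 0)).toList).map (mk b L md rs)

/-- all words with nonzero sum -/
noncomputable def nonzeroItems (b L md rs : ℕ) [NeZero b] : List Item :=
  ((univ.filter (fun w : Fin L → ZMod b => ∑ i, w i ≠ 0)).toList).map (mk b L md rs)

variable {b : ℕ} [NeZero b]

lemma sum_full (L md rs : ℕ) (F : Item → ℝ) :
    ((fullItems b L md rs).map F).sum = ∑ w : Fin L → ZMod b, F (mk b L md rs w) := by
  unfold fullItems
  rw [List.map_map, Finset.sum_map_toList]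
  rfl

lemma sum_zero (L md rs : ℕ) (F : Item → ℝ) :
    ((zeroItems b L md rs).map F).sum =
      ∑ w ∈ univ.filter (fun w : Fin L → ZMod b => ∑ i, w i = 0), F (mk b L md rs w) := by
  unfold zeroItems
  rw [List.map_map, Finset.sum_map_toList]
  rfl

lemma sum_nonzero (L md rs : ℕ) (F : Item → ℝ) :
    ((nonzeroItems b L md rs).map F).sum =
      ∑ w ∈ univ.filter (fun w : Fin L → ZMod b => ∑ i, w i ≠ 0), F (mk b L md rs w) := by
  unfold nonzeroItems
  rw [List.map_map, Finset.sum_map_toList]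
  rfl

/-- the words matching `B` at `a` -/
noncomputable def Mt (b L : ℕ) [NeZero b] {k : ℕ} (B : Fin k → ℕ) (a : ℕ) : Finset (Fin L → ZMod b) :=
  univ.filter (fun w => ∀ j : Fin k, (mk b L 1 0 w).w (a + j) = B j)

lemma mem_Mt {L k : ℕ} {B : Fin k → ℕ} (hB : ∀ j, B j < b) {a : ℕ} (ha : a + k ≤ L)
    (w : Fin L → ZMod b) :
    w ∈ Mt b L B a ↔ ∀ i : Fin L, w i ∈ (if h : a ≤ i.1 ∧ i.1 < a + k then
      ({((B ⟨i.1 - a, by omega⟩ : ℕ) : ZMod b)} : Finset (ZMod b)) else univ) := by
  unfold Mt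
  rw [mem_filter]
  simp only [mem_univ, true_and]
  constructor
  · intro h i
    split_ifs with hi
    · rw [mem_singleton]
      have h1 := h ⟨i.1 - a, by omega⟩
      simp only [mk] at h1
      rw [dif_pos (by omega)] at h1
      have h2 : (⟨a + (i.1 - a), by omega⟩ : Fin L) = i := Fin.ext (by simp only; omega)
      rw [h2] at h1
      rw [← h1, ZMod.natCast_zmod_val]
    · exact mem_univ _
  · intro h j
    have h1 := h ⟨a + j, by have := j.2; omega⟩
    rw [dif_pos (by have := j.2; simp only; omega), mem_singleton] at h1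
    simp only [mk]
    rw [dif_pos (by have := j.2; omega), h1]
    have h2 : (⟨a + j.1 - a, by have := j.2; omega⟩ : Fin k) = j := Fin.ext (by simp only; omega)
    simp only [h2]
    rw [ZMod.val_natCast, Nat.mod_eq_of_lt (hB j)]

lemma card_Mt {L k : ℕ} {B : Fin k → ℕ} (hB : ∀ j, B j < b) {a : ℕ} (ha : a + k ≤ L) :
    (Mt b L B a).card = b ^ (L - k) := by
  have h1 : Mt b L B a = Fintype.piFinset (fun i : Fin L => if h : a ≤ i.1 ∧ i.1 < a + k then
      ({((B ⟨i.1 - a, by omega⟩ : ℕ) : ZMod b)} : Finset (ZMod b)) else univ) := by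
    ext w
    rw [mem_Mt hB ha, Fintype.mem_piFinset]
  rw [h1, Fintype.card_piFinset]
  have h2 : ∀ i : Fin L, (if h : a ≤ i.1 ∧ i.1 < a + k then
      ({((B ⟨i.1 - a, by omega⟩ : ℕ) : ZMod b)} : Finset (ZMod b)) else univ).card =
      if a ≤ i.1 ∧ i.1 < a + k then 1 else b := by
    intro i
    split_ifs with h
    · exact card_singleton _
    · rw [card_univ, ZMod.card]
  rw [prod_congr rfl (fun i _ => h2 i), prod_ite, prod_const_one, one_mul, prod_const]
  congr 1
  have h3 : (univ.filter (fun i : Fin L => a ≤ i.1 ∧ i.1 < a + k)).card = k := by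
    have h4 : (univ.filter (fun i : Fin L => a ≤ i.1 ∧ i.1 < a + k)) =
        (univ : Finset (Fin k)).image (fun j => (⟨a + j.1, by have := j.2; omega⟩ : Fin L)) := by
      ext i
      simp only [mem_filter, mem_univ, true_and, mem_image]
      constructor
      · rintro ⟨h5, h6⟩
        exact ⟨⟨i.1 - a, by omega⟩, Fin.ext (by simp only; omega)⟩
      · rintro ⟨j, rfl⟩
        have := j.2
        simp only
        omega
    rw [h4, card_image_of_injective, card_univ, Fintype.card_fin]
    intro j j' hjj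
    simp only [Fin.mk.injEq] at hjj
    exact Fin.ext (by omega)
  have h5 := card_filter_add_card_filter_not (s := (univ : Finset (Fin L)))
    (fun i : Fin L => a ≤ i.1 ∧ i.1 < a + k)
  rw [card_univ, Fintype.card_fin, h3] at h5
  omega

/-- sums are equidistributed on a set of words which does not restrict one of the coordinates -/
lemma card_sum_zero {L : ℕ} (S : Finset (Fin L → ZMod b)) (c : Fin L)
    (hS : ∀ w v, w ∈ S → Function.update w c v ∈ S) :
    b * (S.filter (fun w => ∑ i, w i = 0)).card = S.card := by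
  have hsum : ∀ (w : Fin L → ZMod b) (v : ZMod b), ∑ i, Function.update w c (w c + v) i =
      (∑ i, w i) + v := by
    intro w v
    rw [Finset.sum_update_of_mem (mem_univ c)]
    rw [← Finset.add_sum_erase _ _ (mem_univ c), sdiff_singleton_eq_erase]
    ring
  have h1 : ∀ s : ZMod b, (S.filter (fun w => ∑ i, w i = s)).card =
      (S.filter (fun w => ∑ i, w i = 0)).card := by
    intro s
    refine card_bij' (fun w _ => Function.update w c (w c + (-s)))
      (fun w _ => Function.update w c (w c + s)) ?_ ?_ ?_ ?_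
    · intro w hw
      rw [mem_filter] at hw ⊢
      refine ⟨hS _ _ hw.1, ?_⟩
      rw [hsum, hw.2]; ring
    · intro w hw
      rw [mem_filter] at hw ⊢
      refine ⟨hS _ _ hw.1, ?_⟩
      rw [hsum, hw.2]; ring
    · intro w _
      simp
    · intro w _
      simp
  have h2 : S.card = ∑ s : ZMod b, (S.filter (fun w => ∑ i, w i = s)).card :=
    card_eq_sum_card_fiberwise (fun w _ => mem_univ _)
  rw [h2, sum_congr rfl (fun s _ => h1 s), sum_const, card_univ, ZMod.card, smul_eq_mul]

lemma card_words (L : ℕ) : (univ : Finset (Fin L → ZMod b)).card = b ^ L := by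
  rw [card_univ, Fintype.card_fun, ZMod.card, Fintype.card_fin]

lemma card_zero {L : ℕ} (hL : 1 ≤ L) :
    b * (univ.filter (fun w : Fin L → ZMod b => ∑ i, w i = 0)).card = b ^ L := by
  rw [card_sum_zero univ ⟨0, hL⟩ (fun _ _ _ => mem_univ _), card_words]

lemma card_Mt_zero {L k : ℕ} (hk : k < L) {B : Fin k → ℕ} (hB : ∀ j, B j < b) {a : ℕ}
    (ha : a + k ≤ L) : b * ((Mt b L B a).filter (fun w => ∑ i, w i = 0)).card = b ^ (L - k) := by
  obtain ⟨c, hc⟩ : ∃ c : Fin L, ¬ (a ≤ c.1 ∧ c.1 < a + k) := by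
    rcases Nat.eq_zero_or_pos a with rfl | h
    · exact ⟨⟨k, hk⟩, by simp⟩
    · exact ⟨⟨0, by omega⟩, by simp only; omega⟩
  rw [card_sum_zero _ c, card_Mt hB ha]
  intro w v hw
  rw [mem_Mt hB ha] at hw ⊢
  intro i
  by_cases hic : i = c
  · subst hic
    rw [dif_neg hc]
    exact mem_univ _
  · rw [Function.update_of_ne hic]
    exact hw i

/-! ### The functionals -/

lemma Xf_mk (L md rs k : ℕ) (w : Fin L → ZMod b) :
    Xf k (mk b L md rs w) = ((L + 1 - k : ℕ) : ℝ) * ((b : ℝ) ^ k)⁻¹ := rfl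

lemma Yf_mk (L md rs : ℕ) {k : ℕ} (B : Fin k → ℕ) (w : Fin L → ZMod b) :
    Yf B (mk b L md rs w) = ∑ a ∈ range (L + 1 - k), if w ∈ Mt b L B a then (1 : ℝ) else 0 := by
  unfold Yf occSet
  rw [← sum_filter, sum_const, nsmul_eq_mul, mul_one]
  congr 2
  ext a
  simp only [mem_filter, Nat.mod_one, true_and, Mt, mem_univ]
  rfl

lemma sum_Yf (L md rs : ℕ) {k : ℕ} (B : Fin k → ℕ) (S : Finset (Fin L → ZMod b)) :
    ∑ w ∈ S, Yf B (mk b L md rs w) = ∑ a ∈ range (L + 1 - k), ((S ∩ Mt b L B a).card : ℝ) := by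
  simp_rw [Yf_mk]
  rw [sum_comm]
  refine sum_congr rfl fun a _ => ?_
  rw [← sum_filter, sum_const, nsmul_eq_mul, mul_one, filter_mem_eq_inter]

lemma b_pos : (0 : ℝ) < b := by
  have : 0 < b := Nat.pos_of_ne_zero (NeZero.ne b)
  exact_mod_cast this

lemma full_Y (L md rs : ℕ) {k : ℕ} (B : Fin k → ℕ) (hB : ∀ j, B j < b) :
    ((fullItems b L md rs).map (Yf B)).sum = ((L + 1 - k : ℕ) : ℝ) * (b : ℝ) ^ (L - k) := by
  rw [sum_full, sum_Yf]
  have : ∀ a ∈ range (L + 1 - k), ((univ ∩ Mt b L B a).card : ℝ) = (b : ℝ) ^ (L - k) := by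
    intro a ha
    rw [mem_range] at ha
    rw [univ_inter, card_Mt hB (by omega)]
    push_cast
    rfl
  rw [sum_congr rfl this, sum_const, card_range, nsmul_eq_mul]

lemma full_X (L md rs : ℕ) (k : ℕ) :
    ((fullItems b L md rs).map (Xf k)).sum = ((L + 1 - k : ℕ) : ℝ) * (b : ℝ) ^ (L - k) := by
  rw [sum_full]
  simp_rw [Xf_mk]
  rw [sum_const, card_words, nsmul_eq_mul]
  rcases le_or_gt k L with h | h
  · have h1 : (b : ℝ) ^ L = b ^ (L - k) * b ^ k := by rw [← pow_add]; congr 1; omega
    push_cast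
    rw [h1]
    have := b_pos (b := b)
    field_simp
  · have h1 : L + 1 - k = 0 := by omega
    rw [h1]
    simp

lemma zero_Y {L : ℕ} (md rs : ℕ) {k : ℕ} (hk : k ≠ L) (B : Fin k → ℕ) (hB : ∀ j, B j < b) :
    (b : ℝ) * ((zeroItems b L md rs).map (Yf B)).sum = ((L + 1 - k : ℕ) : ℝ) * (b : ℝ) ^ (L - k) := by
  rw [sum_zero, sum_Yf, mul_sum]
  have : ∀ a ∈ range (L + 1 - k), (b : ℝ) *
      (((univ.filter (fun w : Fin L → ZMod b => ∑ i, w i = 0)) ∩ Mt b L B a).card : ℝ) =
      (b : ℝ) ^ (L - k) := by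
    intro a ha
    rw [mem_range] at ha
    have h1 := card_Mt_zero (b := b) (L := L) (k := k) (by omega) hB (a := a) (by omega)
    have h2 : (univ.filter (fun w : Fin L → ZMod b => ∑ i, w i = 0)) ∩ Mt b L B a =
        (Mt b L B a).filter (fun w => ∑ i, w i = 0) := by
      ext w
      simp only [mem_inter, mem_filter, mem_univ, true_and]
      tauto
    rw [h2]
    exact_mod_cast h1
  rw [sum_congr rfl this, sum_const, card_range, nsmul_eq_mul]

lemma zero_X {L : ℕ} (hL : 1 ≤ L) (md rs : ℕ) (k : ℕ) :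
    (b : ℝ) * ((zeroItems b L md rs).map (Xf k)).sum = ((L + 1 - k : ℕ) : ℝ) * (b : ℝ) ^ (L - k) := by
  rw [sum_zero]
  simp_rw [Xf_mk]
  rw [sum_const, nsmul_eq_mul, ← mul_assoc]
  have h0 : (b : ℝ) * ((univ.filter (fun w : Fin L → ZMod b => ∑ i, w i = 0)).card : ℝ) =
      (b : ℝ) ^ L := by exact_mod_cast card_zero (b := b) hL
  rw [h0]
  rcases le_or_gt k L with h | h
  · have h1 : (b : ℝ) ^ L = b ^ (L - k) * b ^ k := by rw [← pow_add]; congr 1; omega
    rw [h1]
    have := b_pos (b := b)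
    field_simp
  · have h1 : L + 1 - k = 0 := by omega
    rw [h1]
    simp

/-- the zero block occurs exactly once in the words with sum zero of the same length -/
lemma zero_Y_self (L md rs : ℕ) :
    ((zeroItems b L md rs).map (Yf (fun _ : Fin L => 0))).sum = 1 := by
  have hB : ∀ j : Fin L, (fun _ : Fin L => 0) j < b := fun _ => Nat.pos_of_ne_zero (NeZero.ne b)
  rw [sum_zero, sum_Yf]
  have h0 : L + 1 - L = 1 := by omega
  rw [h0, sum_range_one]
  have h1 : (univ.filter (fun w : Fin L → ZMod b => ∑ i, w i = 0)) ∩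
      Mt b L (fun _ : Fin L => 0) 0 = {0} := by
    ext w
    simp only [mem_inter, mem_filter, mem_univ, true_and, mem_singleton]
    rw [mem_Mt hB (by omega)]
    constructor
    · rintro ⟨-, h⟩
      funext i
      have h2 := h i
      rw [dif_pos (by have := i.2; omega), mem_singleton] at h2
      rw [h2]
      simp
    · rintro rfl
      refine ⟨by simp, fun i => ?_⟩
      rw [dif_pos (by have := i.2; omega), mem_singleton]
      simp
  rw [h1, card_singleton]
  norm_num

/-- and never in the words with nonzero sum -/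
lemma nonzero_Y_self (L md rs : ℕ) :
    ((nonzeroItems b L md rs).map (Yf (fun _ : Fin L => 0))).sum = 0 := by
  have hB : ∀ j : Fin L, (fun _ : Fin L => 0) j < b := fun _ => Nat.pos_of_ne_zero (NeZero.ne b)
  rw [sum_nonzero, sum_Yf]
  have h0 : L + 1 - L = 1 := by omega
  rw [h0, sum_range_one]
  have h1 : (univ.filter (fun w : Fin L → ZMod b => ∑ i, w i ≠ 0)) ∩
      Mt b L (fun _ : Fin L => 0) 0 = ∅ := by
    ext w
    simp only [mem_inter, mem_filter, mem_univ, true_and, notMem_empty, iff_false]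
    rintro ⟨h2, h3⟩
    rw [mem_Mt hB (by omega)] at h3
    apply h2
    apply sum_eq_zero
    intro i _
    have h4 := h3 i
    rw [dif_pos (by have := i.2; omega), mem_singleton] at h4
    rw [h4]
    simp
  rw [h1, card_empty]
  norm_num

lemma sum_flatten_replicate (P : ℕ) (l : List Item) (F : Item → ℝ) :
    (((List.replicate P l).flatten).map F).sum = P * (l.map F).sum := by
  induction P with
  | zero => simp
  | succ P ih =>
    rw [List.replicate_succ, List.flatten_cons, List.map_append, List.sum_append, ih]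
    push_cast
    ring

lemma mk_w_lt (L md rs : ℕ) (w : Fin L → ZMod b) (a : ℕ) : (mk b L md rs w).w a < b := by
  unfold mk
  simp only
  split_ifs
  · exact ZMod.val_lt _
  · exact Nat.pos_of_ne_zero (NeZero.ne b)

lemma mem_full {L md rs : ℕ} {it : Item} (h : it ∈ fullItems b L md rs) :
    it.b = b ∧ it.len = L ∧ it.md = md ∧ it.rs = rs ∧ ∀ a, it.w a < it.b := by
  unfold fullItems at h
  rw [List.mem_map] at h
  obtain ⟨w, -, rfl⟩ := h
  exact ⟨rfl, rfl, rfl, rfl, mk_w_lt L md rs w⟩

lemma mem_zero {L md rs : ℕ} {it : Item} (h : it ∈ zeroItems b L md rs) :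
    it.b = b ∧ it.len = L ∧ it.md = md ∧ it.rs = rs ∧ ∀ a, it.w a < it.b := by
  unfold zeroItems at h
  rw [List.mem_map] at h
  obtain ⟨w, -, rfl⟩ := h
  exact ⟨rfl, rfl, rfl, rfl, mk_w_lt L md rs w⟩

lemma mem_nonzero {L md rs : ℕ} {it : Item} (h : it ∈ nonzeroItems b L md rs) :
    it.b = b ∧ it.len = L ∧ it.md = md ∧ it.rs = rs ∧ ∀ a, it.w a < it.b := by
  unfold nonzeroItems at h
  rw [List.mem_map] at h
  obtain ⟨w, -, rfl⟩ := h
  exact ⟨rfl, rfl, rfl, rfl, mk_w_lt L md rs w⟩

lemma full_ne (L md rs : ℕ) : fullItems b L md rs ≠ [] := by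
  unfold fullItems
  intro h
  rw [List.map_eq_nil_iff, Finset.toList_eq_nil] at h
  exact (univ_nonempty (α := Fin L → ZMod b)).ne_empty h

end Pool.Agent.R485.Cantor
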