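import Pool.Agent.R485.Cantor.Lists

set_option autoImplicit false

namespace Pool.Agent.R485.Cantor

open Filter Topology Finset

lemma bounded_below (f : ℕ → ℝ) (n0 : ℕ) (h : ∀ n, n0 ≤ n → 0 ≤ f n) (N : ℕ) :
    -∑ n ∈ range n0, |f n| ≤ ∑ n ∈ range N, f n := by
  have h1 : ∑ n ∈ range N, (-f n) ≤ ∑ n ∈ range N, (if n < n0 then |f n| else 0) := by
    apply sum_le_sum
    intro n _
    split_ifs with hn
    · exact neg_le_abs _
    · have := h n (by omega)
      linarith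
  have h2 : ∑ n ∈ range N, (if n < n0 then |f n| else 0) ≤ ∑ n ∈ range n0, |f n| := by
    rw [← sum_filter]
    apply sum_le_sum_of_subset_of_nonneg
    · intro n hn
      rw [mem_filter] at hn
      exact mem_range.2 hn.2
    · intro _ _ _
      exact abs_nonneg _
  rw [sum_neg_distrib] at h1
  linarith

/-- the cycles -/
noncomputable def cycJ (j m : ℕ) : List Item :=
  fullItems (m + 2) (m + 1) 1 0 ++
    (if j ≤ m + 1 then
      (List.replicate ((m + 1) * (m + 2) ^ (m + 1)) (zeroItems (m + 2) j 1 0)).flatten else [])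

lemma mem_cycJ {j m : ℕ} (hj : 1 ≤ j) {it : Item} (h : it ∈ cycJ j m) :
    it.b = m + 2 ∧ (1 ≤ it.len ∧ it.len ≤ m + 1) ∧ it.md = 1 ∧ it.rs = 0 ∧ ∀ a, it.w a < it.b := by
  unfold cycJ at h
  rw [List.mem_append] at h
  rcases h with h | h
  · obtain ⟨h1, h2, h3, h4, h5⟩ := mem_full h
    exact ⟨h1, by omega, h3, h4, h5⟩
  · split_ifs at h with hjm
    · rw [List.mem_flatten] at h
      obtain ⟨l, hl, hit⟩ := h
      rw [List.mem_replicate] at hl
      rw [hl.2] at hit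
      obtain ⟨h1, h2, h3, h4, h5⟩ := mem_zero hit
      exact ⟨h1, by omega, h3, h4, h5⟩
    · simp at h

lemma cycJ_cyc {j : ℕ} (hj : 1 ≤ j) : Cyc (cycJ j) (fun m => m + 2) := by
  refine ⟨fun m h => ?_, fun m => le_rfl, fun m it h => (mem_cycJ hj h).1,
    fun m it h => (mem_cycJ hj h).2.2.2.2, fun m it h => ?_, fun m it h => ?_,
    fun m it h => (mem_cycJ hj h).2.1⟩
  · unfold cycJ at h
    rw [List.append_eq_nil_iff] at h
    exact full_ne _ _ _ h.1
  · have := (mem_cycJ hj h).2.2.1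
    omega
  · have h1 := (mem_cycJ hj h).2.2.1
    have h2 := (mem_cycJ hj h).2.2.2.1
    omega

lemma sum_cycJ {j m : ℕ} (hjm : j ≤ m + 1) (F : Item → ℝ) :
    ((cycJ j m).map F).sum = ((fullItems (m + 2) (m + 1) 1 0).map F).sum +
      (((m + 1) * (m + 2) ^ (m + 1) : ℕ) : ℝ) * ((zeroItems (m + 2) j 1 0).map F).sum := by
  unfold cycJ
  rw [List.map_append, List.sum_append, if_pos hjm, sum_flatten_replicate]

lemma X_nonneg (k : ℕ) (l : List Item) : 0 ≤ (l.map (Xf k)).sum := by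
  apply List.sum_nonneg
  intro a ha
  rw [List.mem_map] at ha
  obtain ⟨it, -, rfl⟩ := ha
  exact Xf_nonneg k it

lemma one_le_full {m k : ℕ} (h : k ≤ m + 1) :
    (1 : ℝ) ≤ ((m + 1 + 1 - k : ℕ) : ℝ) * ((m + 2 : ℕ) : ℝ) ^ (m + 1 - k) := by
  have h1 : (1 : ℝ) ≤ ((m + 1 + 1 - k : ℕ) : ℝ) := by exact_mod_cast (by omega : 1 ≤ m + 1 + 1 - k)
  have h2 : (1 : ℝ) ≤ ((m + 2 : ℕ) : ℝ) ^ (m + 1 - k) := by
    apply one_le_pow₀
    exact_mod_cast (by omega : 1 ≤ m + 2)
  nlinarith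

theorem orders (j : ℕ) (hj : 1 ≤ j) : ∃ (q : ℕ → ℕ) (x : ℝ), Basic q ∧ Tendsto q atTop atTop ∧
    (∀ k, 1 ≤ k → Tendsto (weight q k 1 0) atTop atTop) ∧
    (∀ k, 1 ≤ k → k ≠ j → NormalOfOrder q k x) ∧ ¬ NormalOfOrder q j x := by
  obtain ⟨σ, A, μ, ν, x, H⟩ := realize (cycJ_cyc hj)
  have hX1 : ∀ k, ∀ m, max k j ≤ m → 1 ≤ ((cycJ j m).map (Xf k)).sum := by
    intro k m hm
    have h1 : k ≤ m := (le_max_left _ _).trans hm
    have h2 : j ≤ m := (le_max_right _ _).trans hm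
    rw [sum_cycJ (by omega), full_X]
    have h3 := one_le_full (m := m) (k := k) (by omega)
    have h4 := X_nonneg k (zeroItems (m + 2) j 1 0)
    have h5 : (0 : ℝ) ≤ (((m + 1) * (m + 2) ^ (m + 1) : ℕ) : ℝ) := Nat.cast_nonneg _
    nlinarith
  have hgr : ∀ k, 1 ≤ k → Tendsto (xx σ A k 1 0) atTop atTop ∧
      Tendsto (fun N => xx σ A k 1 0 (N + 1) / xx σ A k 1 0 N) atTop (𝓝 1) := fun k hk =>
    xx_growth H k 1 0 hk (Xf k) (Xf_nonneg k) (fun t => by rw [winSet_one]; exact le_rfl)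
      (max k j) (hX1 k)
  refine ⟨qS σ, x, basic_qS H.good, tendsto_qS H.good, fun k hk => ?_, fun k hk hkj => ?_, ?_⟩
  · obtain ⟨C, -, -, h3, -⟩ := sandwich H hk (fun _ : Fin k => 0) 1 0
    apply tendsto_atTop_mono h3
    exact tendsto_atTop_add_const_right _ (-C) ((hgr k hk).1.comp H.hν)
  · intro B
    refine normal_test H hk B (max (max k j) (∑ i, B i)) (fun m hm => ?_) (fun m hm => ?_)
    · have h1 : max k j ≤ m := (le_max_left _ _).trans hm
      have h2 : ∑ i, B i ≤ m := (le_max_right _ _).trans hm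
      have h3 : k ≤ m := (le_max_left _ _).trans h1
      have h4 : j ≤ m := (le_max_right _ _).trans h1
      have hB : ∀ i, B i < m + 2 := fun i => by
        have := single_le_sum (f := B) (s := univ) (fun _ _ => Nat.zero_le _) (mem_univ i)
        omega
      rw [sum_cycJ (by omega), sum_cycJ (by omega), full_X, full_Y _ _ _ B hB]
      congr 2
      have h5 := zero_X (b := m + 2) hj 1 0 k
      have h6 := zero_Y (b := m + 2) (L := j) 1 0 hkj B hB
      have h7 : (0 : ℝ) < ((m + 2 : ℕ) : ℝ) := by positivity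
      exact mul_left_cancel₀ h7.ne' (h5.trans h6.symm)
    · exact hX1 k m ((le_max_left _ _).trans hm)
  · intro hcon
    have hcon' := hcon (fun _ : Fin j => 0)
    obtain ⟨C, h1, h2, h3, h4⟩ := sandwich H hj (fun _ : Fin j => 0) 1 0
    obtain ⟨n0, hn0⟩ := Filter.eventually_atTop.1 (H.hμ.eventually_ge_atTop j)
    have hx : ∀ N, xx σ A j 1 0 N = ∑ n ∈ range N, ((cycJ j (μ n)).map (Xf j)).sum := by
      intro N
      rw [← H.sums]
      unfold xx
      refine sum_congr rfl fun t _ => ?_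
      rw [winSet_one]
      rfl
    have hy : ∀ N, yy σ A (fun _ : Fin j => 0) 1 0 N =
        ∑ n ∈ range N, ((cycJ j (μ n)).map (Yf (fun _ : Fin j => 0))).sum := by
      intro N
      rw [← H.sums]
      unfold yy
      refine sum_congr rfl fun t _ => ?_
      rw [occSet_one]
      rfl
    refine ratio_big H.hν (hgr j hj).1 (hgr j hj).2 (y := yy σ A (fun _ : Fin j => 0) 1 0)
      (∑ n ∈ range n0, |((cycJ j (μ n)).map (Yf (fun _ : Fin j => 0))).sum -
        4 / 3 * ((cycJ j (μ n)).map (Xf j)).sum|) h1 h3 h4 ?_ hcon'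
    intro N
    have h5 := bounded_below (fun n => ((cycJ j (μ n)).map (Yf (fun _ : Fin j => 0))).sum -
        4 / 3 * ((cycJ j (μ n)).map (Xf j)).sum) n0 ?_ N
    · rw [sum_sub_distrib, ← mul_sum, ← hx, ← hy] at h5
      linarith
    · intro n hn
      have hm := hn0 n hn
      set m := μ n with hmdef
      rw [sum_cycJ (by omega), sum_cycJ (by omega), full_X, full_Y _ _ _ _ (fun _ => by omega),
        zero_Y_self]
      have h6 := zero_X (b := m + 2) hj 1 0 j
      rw [Nat.sub_self, pow_zero, show j + 1 - j = 1 by omega] at h6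
      set X := ((zeroItems (m + 2) j 1 0).map (Xf j)).sum
      have hb : (2 : ℝ) ≤ ((m + 2 : ℕ) : ℝ) := by exact_mod_cast (by omega : 2 ≤ m + 2)
      have hX : X ≤ 1 / 2 := by
        have hX0 : 0 ≤ X := X_nonneg _ _
        push_cast at h6 hb
        nlinarith
      have hG : ((m + 1 + 1 - j : ℕ) : ℝ) * ((m + 2 : ℕ) : ℝ) ^ (m + 1 - j) ≤
          (((m + 1) * (m + 2) ^ (m + 1) : ℕ) : ℝ) := by
        have : (m + 1 + 1 - j) * (m + 2) ^ (m + 1 - j) ≤ (m + 1) * (m + 2) ^ (m + 1) := by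
          apply Nat.mul_le_mul (by omega)
          exact Nat.pow_le_pow_right (by omega) (by omega)
        exact_mod_cast this
      have hP : (0 : ℝ) ≤ (((m + 1) * (m + 2) ^ (m + 1) : ℕ) : ℝ) := Nat.cast_nonneg _
      nlinarith

end Pool.Agent.R485.Cantor
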