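import Pool.Agent.R485.Cantor.Dim

set_option autoImplicit false

namespace Pool.Agent.R485.Cantor

open Filter Topology Finset

/-- the value of `q` in the slot `t` -/
def bb (t : ℕ) : ℕ := Nat.log 2 t + 2

/-- positions with a small `q`.  The slot `t` consists of the positions from `t ^ 2` to
`(t + 1) ^ 2 - 1`. -/
def Low (p : ℕ) : Prop :=
  (∃ u, 1 ≤ u ∧ u ^ 4 + 1 ≤ p ∧ p ≤ u ^ 4 + bb (u ^ 2)) ∨
    ((¬ ∃ u, Nat.sqrt p = u ^ 2) ∧ p / 2 = ((Nat.sqrt p) ^ 2 + 2) / 2)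

open Classical in
/-- the basic sequence -/
noncomputable def qq (p : ℕ) : ℕ := if Low p then bb (Nat.sqrt p) else 2 ^ (((p + 1).factorial) ^ 2)

lemma bb_two (t : ℕ) : 2 ≤ bb t := by unfold bb; omega

lemma bb_mono {s t : ℕ} (h : s ≤ t) : bb s ≤ bb t := by
  unfold bb
  have := Nat.log_mono_right (b := 2) h
  omega

lemma bb_le (t : ℕ) (ht : 1 ≤ t) : bb t ≤ t + 1 := by
  unfold bb
  have : Nat.log 2 t < t := Nat.log_lt_self 2 (by omega)
  omega

lemma bb_le' (t : ℕ) : bb t ≤ t + 2 := by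
  rcases Nat.eq_zero_or_pos t with rfl | h
  · simp [bb]
  · have := bb_le t h; omega

lemma sqrt_eq {t p : ℕ} (h1 : t ^ 2 ≤ p) (h2 : p < (t + 1) ^ 2) : Nat.sqrt p = t := by
  symm
  rw [Nat.eq_sqrt']
  exact ⟨h1, h2⟩

/-- in a special slot -/
lemma special_sqrt {u p : ℕ} (hu : 1 ≤ u) (h1 : u ^ 4 + 1 ≤ p) (h2 : p ≤ u ^ 4 + bb (u ^ 2)) :
    Nat.sqrt p = u ^ 2 := by
  have hb := bb_le (u ^ 2) (Nat.one_le_pow _ _ hu)
  have h3 : 1 ≤ u ^ 2 := Nat.one_le_pow _ _ hu
  apply sqrt_eq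
  · have : (u ^ 2) ^ 2 = u ^ 4 := by ring
    omega
  · have : (u ^ 2 + 1) ^ 2 = u ^ 4 + 2 * u ^ 2 + 1 := by ring
    omega

lemma sq_inj {u v : ℕ} (h : u ^ 2 = v ^ 2) : u = v := Nat.pow_left_injective (n := 2) (by norm_num) h

lemma special_q {u p : ℕ} (hu : 1 ≤ u) (h1 : u ^ 4 + 1 ≤ p) (h2 : p ≤ u ^ 4 + bb (u ^ 2)) :
    qq p = bb (u ^ 2) := by
  have hL : Low p := Or.inl ⟨u, hu, h1, h2⟩
  unfold qq
  rw [if_pos hL, special_sqrt hu h1 h2]

/-- the even place of a main slot -/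
def ss (t : ℕ) : ℕ := 2 * ((t ^ 2 + 2) / 2)

lemma ss_bounds (t : ℕ) : t ^ 2 + 1 ≤ ss t ∧ ss t ≤ t ^ 2 + 2 := by unfold ss; omega

lemma main_q {t : ℕ} (ht : ¬ ∃ u, t = u ^ 2) : qq (ss t) = bb t ∧ qq (ss t + 1) = bb t := by
  have h2 : 2 ≤ t := by
    by_contra h
    have : t = 0 ∨ t = 1 := by omega
    rcases this with rfl | rfl
    · exact ht ⟨0, by norm_num⟩
    · exact ht ⟨1, by norm_num⟩
  obtain ⟨h3, h4⟩ := ss_bounds t
  have h5 : (t + 1) ^ 2 = t ^ 2 + 2 * t + 1 := by ring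
  have e1 : Nat.sqrt (ss t) = t := sqrt_eq (by omega) (by omega)
  have e2 : Nat.sqrt (ss t + 1) = t := sqrt_eq (by omega) (by omega)
  constructor
  · unfold qq
    rw [if_pos, e1]
    right
    rw [e1]
    refine ⟨ht, ?_⟩
    unfold ss; omega
  · unfold qq
    rw [if_pos, e2]
    right
    rw [e2]
    refine ⟨ht, ?_⟩
    unfold ss; omega

/-- two consecutive low places, the first of which is odd, lie in a special slot -/
lemma odd_low {i : ℕ} (hi : i % 2 = 1) (h1 : Low i) (h2 : Low (i + 1)) :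
    ∃ u, 1 ≤ u ∧ u ^ 4 + 1 ≤ i ∧ i ≤ u ^ 4 + bb (u ^ 2) := by
  rcases h1 with h1 | ⟨h1, h1'⟩
  · exact h1
  exfalso
  rcases h2 with ⟨u, hu, h2, h3⟩ | ⟨h2, h2'⟩
  · have h4 := special_sqrt hu h2 h3
    have h5 : i ≠ u ^ 4 := by
      intro h5
      apply h1
      refine ⟨u, ?_⟩
      apply sqrt_eq
      · have : (u ^ 2) ^ 2 = u ^ 4 := by ring
        omega
      · have : (u ^ 2 + 1) ^ 2 = u ^ 4 + 2 * u ^ 2 + 1 := by ring
        omega
    exact h1 ⟨u, special_sqrt hu (by omega) (by omega)⟩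
  · have h3 : Nat.sqrt i ≤ Nat.sqrt (i + 1) := Nat.sqrt_le_sqrt (by omega)
    have h4 : Nat.sqrt (i + 1) ≤ Nat.sqrt i + 1 := Nat.sqrt_succ_le_succ_sqrt i
    have h6 : Nat.sqrt (i + 1) = Nat.sqrt i ∨ Nat.sqrt (i + 1) = Nat.sqrt i + 1 := by omega
    rcases h6 with h6 | h6
    · rw [h6] at h2'
      omega
    · have h7 : (Nat.sqrt (i + 1)) ^ 2 ≤ i + 1 := Nat.sqrt_le' _
      have h8 : i < (Nat.sqrt i + 1) ^ 2 := Nat.lt_succ_sqrt' _
      rw [← h6] at h8
      have h9 : (Nat.sqrt (i + 1)) ^ 2 = i + 1 := by omega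
      rw [h9] at h2'
      omega

lemma pow_ge_of_not_low {p : ℕ} (h : ¬ Low p) : qq p = 2 ^ (((p + 1).factorial) ^ 2) := by
  unfold qq; rw [if_neg h]

lemma fac_ge (p : ℕ) : p + 1 ≤ ((p + 1).factorial) ^ 2 := by
  have h1 : p + 1 ≤ (p + 1).factorial := Nat.self_le_factorial _
  have h2 : 1 ≤ (p + 1).factorial := Nat.one_le_iff_ne_zero.2 (Nat.factorial_ne_zero _)
  nlinarith

lemma two_pow_le_of_not_low {p : ℕ} (h : ¬ Low p) : 2 ^ (p + 1) ≤ qq p := by
  rw [pow_ge_of_not_low h]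
  exact Nat.pow_le_pow_right (by norm_num) (fac_ge p)

lemma bb_sqrt_le (p : ℕ) : bb (Nat.sqrt p) ≤ 2 ^ (((p + 1).factorial) ^ 2) := by
  have h1 : bb (Nat.sqrt p) ≤ p + 2 := (bb_le' _).trans (by have := Nat.sqrt_le_self p; omega)
  have h2 : p + 2 ≤ 2 ^ (p + 1) := by
    have : p + 1 < 2 ^ (p + 1) := Nat.lt_two_pow_self
    omega
  exact h1.trans (h2.trans (Nat.pow_le_pow_right (by norm_num) (fac_ge p)))

lemma bb_le_qq (p : ℕ) : bb (Nat.sqrt p) ≤ qq p := by
  unfold qq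
  split_ifs with h
  · exact le_rfl
  · exact bb_sqrt_le p

lemma qq_le (p : ℕ) : qq p ≤ 2 ^ (((p + 1).factorial) ^ 2) := by
  unfold qq
  split_ifs with h
  · exact bb_sqrt_le p
  · exact le_rfl

lemma basic_qq : Basic qq := fun n _ => (bb_two _).trans (bb_le_qq n)

lemma tendsto_bb : Tendsto bb atTop atTop := by
  rw [tendsto_atTop_atTop]
  intro C
  refine ⟨2 ^ C, fun t ht => ?_⟩
  unfold bb
  have : C ≤ Nat.log 2 t := by
    have h := Nat.log_mono_right (b := 2) ht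
    rwa [Nat.log_pow (by norm_num)] at h
  omega

lemma tendsto_sqrt : Tendsto Nat.sqrt atTop atTop := by
  rw [tendsto_atTop_atTop]
  intro C
  refine ⟨C ^ 2, fun t ht => ?_⟩
  rw [Nat.le_sqrt']
  exact ht

lemma tendsto_qq : Tendsto qq atTop atTop :=
  tendsto_atTop_mono bb_le_qq (tendsto_bb.comp tendsto_sqrt)

lemma prodTo_qq_le (p : ℕ) : prodTo qq p ≤ 2 ^ (p * ((p + 1).factorial) ^ 2) := by
  induction p with
  | zero => simp [prodTo]
  | succ p ih =>
    rw [prodTo_succ]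
    calc prodTo qq p * qq (p + 1) ≤ 2 ^ (p * ((p + 1).factorial) ^ 2) *
          2 ^ (((p + 1 + 1).factorial) ^ 2) := Nat.mul_le_mul ih (qq_le _)
      _ = 2 ^ (p * ((p + 1).factorial) ^ 2 + ((p + 1 + 1).factorial) ^ 2) := by rw [pow_add]
      _ ≤ 2 ^ ((p + 1) * ((p + 1 + 1).factorial) ^ 2) := by
          apply Nat.pow_le_pow_right (by norm_num)
          have h : (p + 1).factorial ≤ (p + 1 + 1).factorial := Nat.factorial_le (by omega)
          have h2 : ((p + 1).factorial) ^ 2 ≤ ((p + 1 + 1).factorial) ^ 2 := Nat.pow_le_pow_left h 2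
          calc p * ((p + 1).factorial) ^ 2 + ((p + 1 + 1).factorial) ^ 2
              ≤ p * ((p + 1 + 1).factorial) ^ 2 + ((p + 1 + 1).factorial) ^ 2 := by gcongr
            _ = (p + 1) * ((p + 1 + 1).factorial) ^ 2 := by ring

/-- the separators are huge -/
lemma sep_huge {p : ℕ} (hp : 1 ≤ p) (h : ¬ Low p) : prodTo qq (p - 1) ^ p ≤ qq p := by
  rw [pow_ge_of_not_low h]
  obtain ⟨r, rfl⟩ : ∃ r, p = r + 1 := ⟨p - 1, by omega⟩
  simp only [Nat.add_sub_cancel]
  calc prodTo qq r ^ (r + 1) ≤ (2 ^ (r * ((r + 1).factorial) ^ 2)) ^ (r + 1) :=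
        Nat.pow_le_pow_left (prodTo_qq_le r) _
    _ = 2 ^ ((r * ((r + 1).factorial) ^ 2) * (r + 1)) := by rw [← pow_mul]
    _ ≤ 2 ^ (((r + 1 + 1).factorial) ^ 2) := by
        apply Nat.pow_le_pow_right (by norm_num)
        rw [Nat.factorial_succ (r + 1), mul_pow]
        calc (r * ((r + 1).factorial) ^ 2) * (r + 1) = (r * (r + 1)) * ((r + 1).factorial) ^ 2 := by ring
          _ ≤ (r + 1 + 1) ^ 2 * ((r + 1).factorial) ^ 2 := by
              apply Nat.mul_le_mul_right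
              nlinarith

/-! ### Divergence -/

lemma weight_mono (q : ℕ → ℕ) (k m r : ℕ) : Monotone (weight q k m r) := by
  intro a b hab
  unfold weight
  apply Finset.sum_le_sum_of_subset_of_nonneg
  · intro i hi
    rw [mem_filter, mem_Icc] at hi ⊢
    exact ⟨⟨hi.1.1, hi.1.2.trans hab⟩, hi.2⟩
  · intro i _ _
    positivity

lemma exists_mod (a m r : ℕ) (h : r < m) : ∃ i, a ≤ i ∧ i < a + m ∧ i % m = r := by
  have hm : 0 < m := by omega
  rcases le_or_gt (a % m) r with h1 | h1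
  · refine ⟨a + (r - a % m), by omega, by omega, ?_⟩
    have : a + (r - a % m) = r + m * (a / m) := by
      have := Nat.mod_add_div a m
      omega
    rw [this, Nat.add_mul_mod_self_left, Nat.mod_eq_of_lt h]
  · have h2 : a % m < m := Nat.mod_lt _ hm
    refine ⟨a + (r + m - a % m), by omega, by omega, ?_⟩
    have : a + (r + m - a % m) = r + m * (a / m + 1) := by
      have := Nat.mod_add_div a m
      rw [mul_add]
      omega
    rw [this, Nat.add_mul_mod_self_left, Nat.mod_eq_of_lt h]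

lemma not_summable_bb (k : ℕ) : ¬ Summable (fun u : ℕ => ((bb (u ^ 2) : ℝ) ^ k)⁻¹) := by
  intro hs
  have h1 : ∀ᶠ u : ℕ in atTop, ((bb (u ^ 2) : ℝ) ^ k) ≤ u := by
    -- bb (u^2) ≤ 6 log u for u ≥ 3
    have h2 : (fun x : ℝ => Real.log x ^ k) =o[atTop] id := Real.isLittleO_pow_log_id_atTop
    have h3 := h2.bound (c := ((6 : ℝ) ^ k)⁻¹) (by positivity)
    have h4 := tendsto_natCast_atTop_atTop (R := ℝ) |>.eventually h3
    filter_upwards [h4, eventually_ge_atTop 3] with u hu hu3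
    have hu0 : (0 : ℝ) < u := by exact_mod_cast (by omega : 0 < u)
    have hlog : 1 ≤ Real.log u := by
      rw [Real.le_log_iff_exp_le hu0]
      have := Real.exp_one_lt_d9
      have h5 : (3 : ℝ) ≤ u := by exact_mod_cast hu3
      linarith
    have hbb : (bb (u ^ 2) : ℝ) ≤ 6 * Real.log u := by
      unfold bb
      push_cast
      have h6 : (Nat.log 2 (u ^ 2) : ℝ) ≤ Real.log ((u : ℝ) ^ 2) / Real.log 2 := by
        have := Real.natLog_le_logb (u ^ 2) 2
        rw [Real.logb] at this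
        push_cast at this
        exact this
      rw [Real.log_pow] at h6
      have h7 : (0.69 : ℝ) < Real.log 2 := by
        have := Real.log_two_gt_d9
        linarith
      have h8 : ((2 : ℕ) : ℝ) * Real.log u / Real.log 2 ≤ 3 * Real.log u := by
        rw [div_le_iff₀ (by linarith)]
        push_cast
        nlinarith
      linarith
    simp only [id_eq, norm_pow, Real.norm_eq_abs] at hu
    rw [abs_of_nonneg (by linarith : (0 : ℝ) ≤ Real.log u), abs_of_pos hu0] at hu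
    calc ((bb (u ^ 2) : ℝ) ^ k) ≤ (6 * Real.log u) ^ k := by gcongr
      _ = 6 ^ k * Real.log u ^ k := by rw [mul_pow]
      _ ≤ 6 ^ k * ((6 ^ k)⁻¹ * u) := by gcongr
      _ = u := by field_simp
  have h9 : Summable (fun u : ℕ => ((u : ℝ))⁻¹) := by
    apply Summable.of_norm_bounded_eventually_nat hs
    filter_upwards [h1, eventually_ge_atTop 1] with u hu hu1
    rw [norm_inv, Real.norm_natCast]
    have : (0 : ℝ) < (bb (u ^ 2) : ℝ) ^ k := by
      have := bb_two (u ^ 2)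
      positivity
    exact inv_anti₀ this hu
  exact Real.not_summable_natCast_inv h9

theorem divI : FullyDivergentI qq := by
  intro k m r hk hm hr
  have hns := (not_summable_iff_tendsto_nat_atTop_of_nonneg
    (f := fun u : ℕ => ((bb (u ^ 2) : ℝ) ^ k)⁻¹) (fun u => by positivity)).1 (not_summable_bb k)
  obtain ⟨u0, hu0⟩ := (tendsto_atTop_atTop.1 (tendsto_bb.comp
    (tendsto_pow_atTop (α := ℕ) (n := 2) (by norm_num)))) (k + m)
  rw [tendsto_atTop_atTop]
  intro C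
  obtain ⟨U, hU⟩ := tendsto_atTop_atTop.1 hns
    (C + ∑ u ∈ range (max u0 1), ((bb (u ^ 2) : ℝ) ^ k)⁻¹)
  set U' := max U (max u0 1) with hU'
  have h1 := hU U' (le_max_left _ _)
  refine ⟨U' ^ 4 + m, fun n hn => ?_⟩
  choose f hf1 hf2 hf3 using fun u : ℕ => exists_mod (u ^ 4 + 1) m r hr
  have hf : ∀ u, max u0 1 ≤ u → u ^ 4 + 1 ≤ f u ∧ f u + k ≤ u ^ 4 + bb (u ^ 2) + 1 := by
    intro u hu
    have := hu0 u ((le_max_left _ _).trans hu)
    simp only [Function.comp_apply] at this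
    have h2 := hf1 u
    have h3 := hf2 u
    constructor
    · omega
    · omega
  have hfs : ∀ u, max u0 1 ≤ u → Nat.sqrt (f u) = u ^ 2 := fun u hu =>
    special_sqrt ((le_max_right _ _).trans hu) (hf u hu).1 (by have := (hf u hu).2; omega)
  have hinj : Set.InjOn f (Ico (max u0 1) U' : Finset ℕ) := by
    intro u hu v hv huv
    rw [mem_coe, mem_Ico] at hu hv
    apply sq_inj
    rw [← hfs u hu.1, ← hfs v hv.1, huv]
  have h2 : ∑ u ∈ Ico (max u0 1) U', ((bb (u ^ 2) : ℝ) ^ k)⁻¹ ≤ weight qq k m r n := by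
    unfold weight
    calc ∑ u ∈ Ico (max u0 1) U', ((bb (u ^ 2) : ℝ) ^ k)⁻¹
        = ∑ u ∈ Ico (max u0 1) U', (∏ j ∈ range k, (qq (f u + j) : ℝ))⁻¹ := by
          apply sum_congr rfl
          intro u hu
          rw [mem_Ico] at hu
          congr 1
          rw [← card_range k, ← prod_const, card_range]
          apply prod_congr rfl
          intro j hj
          rw [mem_range] at hj
          have h3 := hf u hu.1
          rw [special_q ((le_max_right _ _).trans hu.1) (by omega) (by omega)]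
      _ = ∑ i ∈ (Ico (max u0 1) U').image f, (∏ j ∈ range k, (qq (i + j) : ℝ))⁻¹ := by
          rw [sum_image hinj]
      _ ≤ ∑ i ∈ (Icc 1 n).filter (fun i => i % m = r), (∏ j ∈ range k, (qq (i + j) : ℝ))⁻¹ := by
          apply sum_le_sum_of_subset_of_nonneg
          · intro i hi
            rw [mem_image] at hi
            obtain ⟨u, hu, rfl⟩ := hi
            rw [mem_Ico] at hu
            rw [mem_filter, mem_Icc]
            refine ⟨⟨by have := hf1 u; omega, ?_⟩, hf3 u⟩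
            have h4 := hf2 u
            have h5 : (u + 1) ^ 4 ≤ U' ^ 4 := Nat.pow_le_pow_left (by omega) 4
            have h6 : u ^ 4 + 1 ≤ (u + 1) ^ 4 := by nlinarith [sq_nonneg u, Nat.zero_le (u ^ 3), Nat.zero_le (u ^ 2)]
            omega
          · intro i _ _
            positivity
  have h3 : ∑ u ∈ range U', ((bb (u ^ 2) : ℝ) ^ k)⁻¹ =
      ∑ u ∈ range (max u0 1), ((bb (u ^ 2) : ℝ) ^ k)⁻¹ +
        ∑ u ∈ Ico (max u0 1) U', ((bb (u ^ 2) : ℝ) ^ k)⁻¹ := by
    rw [range_eq_Ico, range_eq_Ico, sum_Ico_consecutive _ (Nat.zero_le _) (le_max_right _ _)]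
  linarith

end Pool.Agent.R485.Cantor
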