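import Pool.Agent.R485.Cantor.Slots

set_option autoImplicit false

namespace Pool.Agent.R485.Cantor

open Filter Topology Finset

/-! ### Concatenation of lists -/

lemma sum_getD {α : Type*} (d : α) (F : α → ℝ) (l : List α) :
    ∑ i ∈ range l.length, F (l.getD i d) = (l.map F).sum := by
  induction l with
  | nil => simp
  | cons a l ih =>
    rw [List.length_cons, Finset.sum_range_succ', List.map_cons, List.sum_cons, ← ih]
    simp only [List.getD_cons_succ, List.getD_cons_zero]
    ring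

lemma concat {α : Type*} (d : α) (ℓ : ℕ → List α) (hℓ : ∀ n, ℓ n ≠ []) :
    ∃ (σ : ℕ → α) (A ι : ℕ → ℕ), StrictMono A ∧ A 0 = 0 ∧
      (∀ T, A (ι T) ≤ T ∧ T < A (ι T + 1)) ∧ Tendsto ι atTop atTop ∧
      (∀ T, σ T ∈ ℓ (ι T)) ∧
      ∀ (F : α → ℝ) (N : ℕ), ∑ t ∈ range (A N), F (σ t) = ∑ n ∈ range N, ((ℓ n).map F).sum := by
  set A : ℕ → ℕ := fun n => ∑ i ∈ range n, (ℓ i).length with hA
  have hpos : ∀ n, 0 < (ℓ n).length := fun n => List.length_pos_of_ne_nil (hℓ n)
  have hA1 : ∀ n, A (n + 1) = A n + (ℓ n).length := fun n => by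
    simp only [hA]; rw [sum_range_succ]
  have hA0 : A 0 = 0 := by simp [hA]
  have hmono : StrictMono A := strictMono_nat_of_lt_succ fun n => by
    rw [hA1]; have := hpos n; omega
  have hge : ∀ n, n ≤ A n := hmono.id_le
  set ι : ℕ → ℕ := fun T => Nat.findGreatest (fun n => A n ≤ T) T with hι
  have hι1 : ∀ T, A (ι T) ≤ T := fun T => by
    have : (fun n => A n ≤ T) (Nat.findGreatest (fun n => A n ≤ T) T) :=
      Nat.findGreatest_spec (P := fun n => A n ≤ T) (m := 0) (Nat.zero_le _)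
        (by show A 0 ≤ T; rw [hA0]; exact Nat.zero_le _)
    exact this
  have hι2 : ∀ T, T < A (ι T + 1) := fun T => by
    by_contra hcon
    push Not at hcon
    have h1 : ι T + 1 ≤ T := (hge _).trans hcon
    have h2 : ι T + 1 ≤ Nat.findGreatest (fun n => A n ≤ T) T := Nat.le_findGreatest h1 hcon
    simp only [hι] at h2
    omega
  have huniq : ∀ n i, i < (ℓ n).length → ι (A n + i) = n := by
    intro n i hi
    have h1 := hι1 (A n + i)
    have h2 := hι2 (A n + i)
    have h3 : A n + i < A (n + 1) := by rw [hA1]; omega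
    have h4 : ι (A n + i) < n + 1 := hmono.lt_iff_lt.1 (lt_of_le_of_lt h1 h3)
    have h5 : n < ι (A n + i) + 1 := hmono.lt_iff_lt.1 (lt_of_le_of_lt (Nat.le_add_right _ _) h2)
    omega
  refine ⟨fun T => (ℓ (ι T)).getD (T - A (ι T)) d, A, ι, hmono, hA0, fun T => ⟨hι1 T, hι2 T⟩,
    ?_, ?_, ?_⟩
  · rw [tendsto_atTop_atTop]
    intro C
    refine ⟨A C, fun T hT => ?_⟩
    exact Nat.le_findGreatest ((hge C).trans hT) hT
  · intro T
    have h1 : T - A (ι T) < (ℓ (ι T)).length := by
      have h2 := hι1 T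
      have h3 := hι2 T
      rw [hA1] at h3
      omega
    beta_reduce
    rw [List.getD_eq_getElem _ _ h1]
    exact List.getElem_mem h1
  · intro F N
    induction N with
    | zero => rw [hA0]; simp
    | succ N ih =>
      rw [sum_range_succ, ← ih, hA1, sum_range_add]
      congr 1
      rw [← sum_getD d F (ℓ N)]
      refine sum_congr rfl fun i hi => ?_
      rw [mem_range] at hi
      beta_reduce
      rw [huniq N i hi, Nat.add_sub_cancel_left]

lemma exists_slow (S : ℕ → ℕ) :
    ∃ μ : ℕ → ℕ, Tendsto μ atTop atTop ∧ ∀ n, μ n * S (μ n) ≤ n := by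
  classical
  refine ⟨fun n => Nat.findGreatest (fun m => m * S m ≤ n) n, ?_, fun n => ?_⟩
  · rw [tendsto_atTop_atTop]
    intro M
    refine ⟨max M (M * S M), fun n hn => ?_⟩
    exact Nat.le_findGreatest ((le_max_left _ _).trans hn) ((le_max_right _ _).trans hn)
  · have : (fun m => m * S m ≤ n) (Nat.findGreatest (fun m => m * S m ≤ n) n) :=
      Nat.findGreatest_spec (P := fun m => m * S m ≤ n) (m := 0) (Nat.zero_le _)
        (by show 0 * S 0 ≤ n; simp)
    exact this

/-! ### Ratios -/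

section ratio

variable {x : ℕ → ℝ} {μ S : ℕ → ℕ}

lemma small_step (hμ : Tendsto μ atTop atTop) (hS : ∀ n, μ n * S (μ n) ≤ n) (n0 : ℝ)
    (hx : ∀ N : ℕ, (N : ℝ) - n0 ≤ x N) (hx0 : ∀ N, x N ≤ x (N + 1))
    (hinc : ∀ N, x (N + 1) - x N ≤ S (μ N)) :
    Tendsto x atTop atTop ∧ Tendsto (fun N => x (N + 1) / x N) atTop (𝓝 1) := by
  have h1 : Tendsto x atTop atTop := by
    apply tendsto_atTop_mono hx
    exact tendsto_atTop_add_const_right _ (-n0) tendsto_natCast_atTop_atTop
  refine ⟨h1, ?_⟩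
  have h2 : Tendsto (fun N => (x (N + 1) - x N) / x N) atTop (𝓝 0) := by
    have h3 : Tendsto (fun N => 2 / (μ N : ℝ)) atTop (𝓝 0) :=
      Tendsto.const_div_atTop (tendsto_natCast_atTop_atTop.comp hμ) 2
    refine squeeze_zero' ?_ ?_ h3
    · filter_upwards [h1.eventually_gt_atTop 0] with N hN
      exact div_nonneg (by linarith [hx0 N]) hN.le
    · filter_upwards [h1.eventually_gt_atTop 0, hμ.eventually_ge_atTop 1,
        (tendsto_natCast_atTop_atTop (R := ℝ)).eventually_ge_atTop (2 * n0)] with N hN hm hN2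
      have hm' : (1 : ℝ) ≤ μ N := by exact_mod_cast hm
      have h4 : (μ N : ℝ) * S (μ N) ≤ N := by exact_mod_cast hS N
      rw [div_le_div_iff₀ hN (by linarith)]
      have h5 := hinc N
      have h6 := hx N
      calc (x (N + 1) - x N) * μ N ≤ S (μ N) * μ N := by gcongr
        _ ≤ N := by linarith
        _ ≤ 2 * x N := by linarith
  have h3 := h2.add_const 1
  rw [zero_add] at h3
  refine h3.congr' ?_
  filter_upwards [h1.eventually_gt_atTop 0] with N hN
  field_simp
  ring

lemma tendsto_aux (h1 : Tendsto x atTop atTop) (a b : ℝ) :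
    Tendsto (fun N => (x N + a) / (x N + b)) atTop (𝓝 1) := by
  have h2 : Tendsto (fun N => x N + b) atTop atTop := tendsto_atTop_add_const_right _ b h1
  have h3 : Tendsto (fun N => (a - b) / (x N + b)) atTop (𝓝 0) := h2.const_div_atTop (a - b)
  have h4 := h3.const_add 1
  rw [add_zero] at h4
  refine h4.congr' ?_
  filter_upwards [h2.eventually_gt_atTop 0] with N hN
  field_simp
  ring

variable {y c w : ℕ → ℝ} {ν : ℕ → ℕ} {C : ℝ}

lemma lower_ratio (h1 : Tendsto x atTop atTop) (h2 : Tendsto (fun N => x (N + 1) / x N) atTop (𝓝 1))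
    (a b : ℝ) : Tendsto (fun N => (x N + a) / (x (N + 1) + b)) atTop (𝓝 1) := by
  have h3 : Tendsto (fun N => x (N + 1)) atTop atTop := h1.comp (tendsto_add_atTop_nat 1)
  have h4 := (tendsto_aux h1 a 0).mul (h2.inv₀ (by norm_num))
  have h5 := h4.mul (tendsto_aux h3 0 b)
  simp only [mul_one, inv_one, add_zero] at h5
  refine h5.congr' ?_
  filter_upwards [h1.eventually_gt_atTop 0, h3.eventually_gt_atTop 0,
    h3.eventually_gt_atTop (-b)] with N hN hN1 hN2
  have : 0 < x (N + 1) + b := by linarith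
  field_simp

lemma upper_ratio (h1 : Tendsto x atTop atTop) (h2 : Tendsto (fun N => x (N + 1) / x N) atTop (𝓝 1))
    (a b : ℝ) : Tendsto (fun N => (x (N + 1) + a) / (x N + b)) atTop (𝓝 1) := by
  have h3 : Tendsto (fun N => x (N + 1)) atTop atTop := h1.comp (tendsto_add_atTop_nat 1)
  have h4 := (tendsto_aux h3 a 0).mul h2
  have h5 := h4.mul (tendsto_aux h1 0 b)
  simp only [mul_one, add_zero] at h5
  refine h5.congr' ?_
  filter_upwards [h1.eventually_gt_atTop 0, h3.eventually_gt_atTop 0,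
    h1.eventually_gt_atTop (-b)] with N hN hN1 hN2
  have : 0 < x N + b := by linarith
  field_simp

lemma ratio_one (hν : Tendsto ν atTop atTop) (h1 : Tendsto x atTop atTop)
    (h2 : Tendsto (fun N => x (N + 1) / x N) atTop (𝓝 1)) (K : ℝ)
    (hc1 : ∀ n, y (ν n) - C ≤ c n) (hc2 : ∀ n, c n ≤ y (ν n + 1) + C)
    (hw1 : ∀ n, x (ν n) - C ≤ w n) (hw2 : ∀ n, w n ≤ x (ν n + 1) + C)
    (hK : ∀ N, |y N - x N| ≤ K) : Tendsto (fun n => c n / w n) atTop (𝓝 1) := by
  have l1 := (lower_ratio h1 h2 (-K - C) C).comp hν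
  have l2 := (upper_ratio h1 h2 (K + C) (-C)).comp hν
  have h3 : Tendsto (fun n => x (ν n)) atTop atTop := h1.comp hν
  refine tendsto_of_tendsto_of_tendsto_of_le_of_le' l1 l2 ?_ ?_
  · filter_upwards [h3.eventually_gt_atTop C, h3.eventually_gt_atTop (K + C)] with n hn hn2
    simp only [Function.comp_apply]
    have k1 := abs_le.1 (hK (ν n))
    have k2 := hc1 n
    have k3 := hw1 n
    have k4 := hw2 n
    have k5 : 0 < w n := by linarith
    apply div_le_div₀ (by linarith) (by linarith) k5 k4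
  · filter_upwards [h3.eventually_gt_atTop C, h3.eventually_gt_atTop (K + C),
      ((h1.comp (tendsto_add_atTop_nat 1)).comp hν).eventually_gt_atTop (-(K + C))] with n hn hn2 hn3
    simp only [Function.comp_apply] at hn3 ⊢
    have k1 := abs_le.1 (hK (ν n + 1))
    have k2 := hc2 n
    have k3 := hw1 n
    apply div_le_div₀ (by linarith) (by linarith) (by linarith) (by linarith)

lemma ratio_big (hν : Tendsto ν atTop atTop) (h1 : Tendsto x atTop atTop)
    (h2 : Tendsto (fun N => x (N + 1) / x N) atTop (𝓝 1)) (K : ℝ)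
    (hc1 : ∀ n, y (ν n) - C ≤ c n)
    (hw1 : ∀ n, x (ν n) - C ≤ w n) (hw2 : ∀ n, w n ≤ x (ν n + 1) + C)
    (hK : ∀ N, 4 / 3 * x N - K ≤ y N) : ¬ Tendsto (fun n => c n / w n) atTop (𝓝 1) := by
  intro hcon
  have l1 := ((lower_ratio h1 h2 (3 / 4 * (-K - C)) C).const_mul (4 / 3)).comp hν
  have h3 : Tendsto (fun n => x (ν n)) atTop atTop := h1.comp hν
  have h4 : (4 / 3 * 1 : ℝ) ≤ 1 := by
    refine le_of_tendsto_of_tendsto l1 hcon ?_
    filter_upwards [h3.eventually_gt_atTop C, h3.eventually_gt_atTop (K + C),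
      h3.eventually_gt_atTop 0] with n hn hn2 hn4
    simp only [Function.comp_apply]
    have k1 := hK (ν n)
    have k2 := hc1 n
    have k3 := hw1 n
    have k4 := hw2 n
    have k5 : 0 < w n := by linarith
    rw [← mul_div_assoc]
    apply div_le_div₀ (by linarith) (by linarith) k5 k4
  norm_num at h4

lemma ratio_small (hν : Tendsto ν atTop atTop) (h1 : Tendsto x atTop atTop)
    (h2 : Tendsto (fun N => x (N + 1) / x N) atTop (𝓝 1)) (K : ℝ)
    (hc2 : ∀ n, c n ≤ y (ν n + 1) + C)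
    (hw1 : ∀ n, x (ν n) - C ≤ w n)
    (hK : ∀ N, y N ≤ 1 / 2 * x N + K) : ¬ Tendsto (fun n => c n / w n) atTop (𝓝 1) := by
  intro hcon
  have l1 := ((upper_ratio h1 h2 (2 * (K + C)) (-C)).const_mul (1 / 2)).comp hν
  have h3 : Tendsto (fun n => x (ν n)) atTop atTop := h1.comp hν
  have h4 : (1 : ℝ) ≤ 1 / 2 * 1 := by
    refine le_of_tendsto_of_tendsto hcon l1 ?_
    filter_upwards [h3.eventually_gt_atTop C,
      ((h1.comp (tendsto_add_atTop_nat 1)).comp hν).eventually_gt_atTop (-(2 * (K + C)))] with n hn hn3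
    simp only [Function.comp_apply] at hn3 ⊢
    have k1 := hK (ν n + 1)
    have k2 := hc2 n
    have k3 := hw1 n
    rw [← mul_div_assoc]
    apply div_le_div₀ (by linarith) (by linarith) (by linarith) (by linarith)
  norm_num at h4

end ratio

end Pool.Agent.R485.Cantor
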