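import Pool.Agent.R485.Cantor.Asymp

set_option autoImplicit false

namespace Pool.Agent.R485.Cantor

open Filter Topology Finset

/-! ### A real number with given digits -/

/-- integer part of `q_1 ⋯ q_n x` when the digits are `E` -/
def numE (q E : ℕ → ℕ) : ℕ → ℕ
  | 0 => 0
  | n + 1 => q (n + 1) * numE q E n + E (n + 1)

theorem exists_real {q : ℕ → ℕ} (hq : Basic q) (E : ℕ → ℕ) (hE : ∀ n, 1 ≤ n → E n < q n)
    (hfr : ∃ᶠ n in atTop, E n + 1 < q n) :
    ∃ x : ℝ, ∀ n, 1 ≤ n → digit q x n = E n := by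
  set lo : ℕ → ℝ := fun n => (numE q E n : ℝ) / prodTo q n with hlo
  set hi : ℕ → ℝ := fun n => ((numE q E n : ℝ) + 1) / prodTo q n with hhi
  have hP : ∀ n, (0 : ℝ) < prodTo q n := fun n => by exact_mod_cast prodTo_pos hq n
  have hqp : ∀ n, (0 : ℝ) < q (n + 1) := fun n => by
    have := hq (n + 1) (by omega)
    exact_mod_cast (by omega : 0 < q (n + 1))
  have hlo1 : ∀ n, lo n ≤ lo (n + 1) := by
    intro n
    simp only [hlo, prodTo_succ, numE]
    rw [div_le_div_iff₀ (hP n) (by push_cast; exact mul_pos (hP n) (hqp n))]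
    push_cast
    have := hP n
    have h2 : (0 : ℝ) ≤ E (n + 1) := Nat.cast_nonneg _
    nlinarith
  have hhi1 : ∀ n, hi (n + 1) ≤ hi n := by
    intro n
    simp only [hhi, prodTo_succ, numE]
    rw [div_le_div_iff₀ (by push_cast; exact mul_pos (hP n) (hqp n)) (hP n)]
    push_cast
    have h1 := hP n
    have h2 : (E (n + 1) : ℝ) + 1 ≤ q (n + 1) := by exact_mod_cast hE (n + 1) (by omega)
    nlinarith
  have hhi2 : ∀ n, E (n + 1) + 1 < q (n + 1) → hi (n + 1) < hi n := by
    intro n h
    simp only [hhi, prodTo_succ, numE]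
    rw [div_lt_div_iff₀ (by push_cast; exact mul_pos (hP n) (hqp n)) (hP n)]
    push_cast
    have h1 := hP n
    have h2 : (E (n + 1) : ℝ) + 1 < q (n + 1) := by exact_mod_cast h
    nlinarith
  have hmono : Monotone lo := monotone_nat_of_le_succ hlo1
  have hanti : Antitone hi := antitone_nat_of_succ_le hhi1
  have hlt : ∀ n, lo n < hi n := fun n => by
    simp only [hlo, hhi]
    exact div_lt_div_of_pos_right (by linarith) (hP n)
  have hlh : ∀ m n, lo m ≤ hi n := fun m n => by
    have h1 := hmono (le_max_left m n)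
    have h2 := hanti (le_max_right m n)
    exact h1.trans ((hlt _).le.trans h2)
  have hbdd : BddAbove (Set.range lo) := ⟨hi 0, by rintro _ ⟨m, rfl⟩; exact hlh m 0⟩
  set x := ⨆ n, lo n with hx
  have hx1 : ∀ n, lo n ≤ x := fun n => le_ciSup hbdd n
  have hx2 : ∀ n, x ≤ hi n := fun n => ciSup_le fun m => hlh m n
  have hx3 : ∀ n, x < hi n := by
    intro n
    obtain ⟨m, hm1, hm2⟩ := (Filter.frequently_atTop.1 hfr) (n + 1)
    obtain ⟨m', rfl⟩ : ∃ m', m = m' + 1 := ⟨m - 1, by omega⟩
    calc x ≤ hi (m' + 1) := hx2 _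
      _ < hi m' := hhi2 m' hm2
      _ ≤ hi n := hanti (by omega)
  have hfl : ∀ n, ⌊(prodTo q n : ℝ) * x⌋ = numE q E n := by
    intro n
    rw [Int.floor_eq_iff]
    have h1 := hx1 n
    have h2 := hx3 n
    simp only [hlo, hhi] at h1 h2
    rw [div_le_iff₀ (hP n)] at h1
    rw [lt_div_iff₀ (hP n)] at h2
    push_cast
    constructor <;> linarith
  refine ⟨x, fun n hn => ?_⟩
  obtain ⟨m, rfl⟩ : ∃ m, n = m + 1 := ⟨n - 1, by omega⟩
  unfold digit
  rw [hfl, numE]
  have h1 := hE (m + 1) (by omega)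
  rw [← Int.natCast_mod]
  rw [Nat.mul_add_mod, Nat.mod_eq_of_lt h1]

/-! ### Slots -/

/-- A word `w` of length `len` over the digits `0, …, b - 1`, to be placed in a slot at a place which
is congruent to `rs` modulo `md`. -/
structure Item where
  /-- the base -/
  b : ℕ
  /-- the length -/
  len : ℕ
  /-- the modulus of the place -/
  md : ℕ
  /-- the residue class of the place -/
  rs : ℕ
  /-- the digits -/
  w : ℕ → ℕ

variable (σ : ℕ → Item)

/-- the place where the word of the slot `t` starts -/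
def st (t : ℕ) : ℕ :=
  t ^ 2 + 1 + (((σ t).rs + (σ t).md - (t ^ 2 + 1) % (σ t).md) % (σ t).md)

/-- the places covered by the words -/
def InS (p : ℕ) : Prop := st σ (Nat.sqrt p) ≤ p ∧ p < st σ (Nat.sqrt p) + (σ (Nat.sqrt p)).len

open Classical in
/-- the basic sequence -/
noncomputable def qS (p : ℕ) : ℕ := if InS σ p then (σ (Nat.sqrt p)).b else 2 ^ (p + 1)

open Classical in
/-- the digits -/
noncomputable def eS (p : ℕ) : ℕ :=
  if InS σ p then (σ (Nat.sqrt p)).w (p - st σ (Nat.sqrt p)) else p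

/-- the conditions on the items -/
structure Good : Prop where
  /-- bases -/
  hb : ∀ t, 2 ≤ (σ t).b
  /-- bases tend to infinity -/
  hbt : Tendsto (fun t => (σ t).b) atTop atTop
  /-- digits -/
  hw : ∀ t a, (σ t).w a < (σ t).b
  /-- moduli -/
  hmd : ∀ t, 1 ≤ (σ t).md
  /-- residues -/
  hrs : ∀ t, (σ t).rs < (σ t).md
  /-- lengths -/
  hlen : ∀ᶠ t in atTop, (σ t).md + (σ t).len ≤ 2 * t

variable {σ}

lemma st_lower (t : ℕ) : t ^ 2 + 1 ≤ st σ t := by unfold st; omega

lemma st_upper (h : Good σ) (t : ℕ) : st σ t ≤ t ^ 2 + (σ t).md := by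
  unfold st
  have := Nat.mod_lt ((σ t).rs + (σ t).md - (t ^ 2 + 1) % (σ t).md) (by have := h.hmd t; omega : 0 < (σ t).md)
  omega

lemma st_mod (h : Good σ) (t : ℕ) : st σ t % (σ t).md = (σ t).rs := by
  unfold st
  have h1 := h.hmd t
  have h2 := h.hrs t
  set a := t ^ 2 + 1
  set m := (σ t).md
  set r := (σ t).rs
  have h3 : a % m < m := Nat.mod_lt _ (by omega)
  rw [Nat.add_mod, Nat.mod_mod, ← Nat.add_mod]
  have h4 := Nat.mod_add_div a m
  have : a + (r + m - a % m) = r + m * (a / m + 1) := by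
    rw [mul_add]; omega
  rw [this, Nat.add_mul_mod_self_left, Nat.mod_eq_of_lt h2]

lemma not_inS_sq (t : ℕ) : ¬ InS σ (t ^ 2) := by
  rintro ⟨h1, -⟩
  rw [Nat.sqrt_eq'] at h1
  have := st_lower (σ := σ) t
  omega

lemma inS_sqrt {i : ℕ} : ∀ j, (∀ j' ≤ j, InS σ (i + j')) → Nat.sqrt (i + j) = Nat.sqrt i := by
  intro j
  induction j with
  | zero => intro _; rfl
  | succ j ih =>
    intro h
    have h1 := ih (fun j' hj' => h j' (by omega))
    rw [← h1]
    have h3 : Nat.sqrt (i + j) ≤ Nat.sqrt (i + (j + 1)) := Nat.sqrt_le_sqrt (by omega)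
    have h4 : Nat.sqrt (i + (j + 1)) ≤ Nat.sqrt (i + j) + 1 := Nat.sqrt_succ_le_succ_sqrt (i + j)
    rcases (by omega : Nat.sqrt (i + (j + 1)) = Nat.sqrt (i + j) ∨
      Nat.sqrt (i + (j + 1)) = Nat.sqrt (i + j) + 1) with h6 | h6
    · exact h6
    · exfalso
      have h7 : (Nat.sqrt (i + (j + 1))) ^ 2 ≤ i + (j + 1) := Nat.sqrt_le' _
      have h8 : i + j < (Nat.sqrt (i + j) + 1) ^ 2 := Nat.lt_succ_sqrt' _
      rw [← h6] at h8
      have h9 : i + (j + 1) = (Nat.sqrt (i + (j + 1))) ^ 2 := by omega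
      have h10 := h (j + 1) le_rfl
      rw [h9] at h10
      exact not_inS_sq _ h10

lemma basic_qS (h : Good σ) : Basic (qS σ) := by
  intro n _
  unfold qS
  split_ifs
  · exact h.hb _
  · calc 2 = 2 ^ 1 := rfl
      _ ≤ 2 ^ (n + 1) := Nat.pow_le_pow_right (by norm_num) (by omega)

lemma tendsto_qS (h : Good σ) : Tendsto (qS σ) atTop atTop := by
  have h1 : Tendsto (fun p => min ((σ (Nat.sqrt p)).b) p) atTop atTop := by
    rw [tendsto_atTop_atTop]
    intro C
    obtain ⟨a, ha⟩ := tendsto_atTop_atTop.1 (h.hbt.comp tendsto_sqrt) C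
    refine ⟨max a C, fun p hp => ?_⟩
    exact le_min (ha p ((le_max_left _ _).trans hp)) ((le_max_right _ _).trans hp)
  apply tendsto_atTop_mono _ h1
  intro p
  unfold qS
  split_ifs
  · exact min_le_left _ _
  · refine (min_le_right _ _).trans ?_
    have : p + 1 < 2 ^ (p + 1) := Nat.lt_two_pow_self
    omega

lemma eS_lt (h : Good σ) (p : ℕ) : eS σ p < qS σ p := by
  unfold eS qS
  split_ifs
  · exact h.hw _ _
  · have : p + 1 < 2 ^ (p + 1) := Nat.lt_two_pow_self
    omega

lemma eS_freq : ∃ᶠ n in atTop, eS σ n + 1 < qS σ n := by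
  rw [Filter.frequently_atTop]
  intro a
  refine ⟨a ^ 2, by nlinarith [sq_nonneg a], ?_⟩
  unfold eS qS
  rw [if_neg (not_inS_sq a), if_neg (not_inS_sq a)]
  exact Nat.lt_two_pow_self

theorem exists_real_S (h : Good σ) : ∃ x : ℝ, ∀ n, 1 ≤ n → digit (qS σ) x n = eS σ n :=
  exists_real (basic_qS h) (eS σ) (fun n _ => eS_lt h n) eS_freq

/-! ### Counting -/

/-- the places in the word of `it` (starting at `s`) at which `B` occurs, in the class `r mod m` -/
def occSet (it : Item) (s : ℕ) {k : ℕ} (B : Fin k → ℕ) (m r : ℕ) : Finset ℕ :=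
  (range (it.len + 1 - k)).filter (fun a => (s + a) % m = r ∧ ∀ j : Fin k, it.w (a + j) = B j)

/-- the places in the word of `it` (starting at `s`) at which a window of length `k` starts -/
def winSet (it : Item) (s k m r : ℕ) : Finset ℕ :=
  (range (it.len + 1 - k)).filter (fun a => (s + a) % m = r)

lemma window_data {i k : ℕ} (hk : 1 ≤ k) (h : ∀ j < k, InS σ (i + j)) :
    st σ (Nat.sqrt i) ≤ i ∧ i - st σ (Nat.sqrt i) < (σ (Nat.sqrt i)).len + 1 - k ∧
      ∀ j < k, Nat.sqrt (i + j) = Nat.sqrt i := by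
  have hs : ∀ j < k, Nat.sqrt (i + j) = Nat.sqrt i := fun j hj =>
    inS_sqrt j (fun j' hj' => h j' (by omega))
  have h0 := h 0 (by omega)
  have h1 := h (k - 1) (by omega)
  unfold InS at h0 h1
  rw [hs (k - 1) (by omega)] at h1
  rw [add_zero] at h0
  refine ⟨h0.1, ?_, hs⟩
  have := h0.1
  have := h1.2
  omega

theorem count_le {x : ℝ} (hx : ∀ n, 1 ≤ n → digit (qS σ) x n = eS σ n) {k : ℕ} (hk : 1 ≤ k)
    (B : Fin k → ℕ) (m r : ℕ) :
    ∃ C : ℕ, ∀ n, count (qS σ) x B m r n ≤
      ∑ t ∈ range (Nat.sqrt n + 1), (occSet (σ t) (st σ t) B m r).card + C := by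
  classical
  obtain ⟨M, hM⟩ : ∃ M : ℕ, ∀ j, B j < M :=
    ⟨(∑ j, B j) + 1, fun j => Nat.lt_succ_of_le (single_le_sum (fun _ _ => Nat.zero_le _) (mem_univ j))⟩
  refine ⟨M, fun n => ?_⟩
  unfold count
  have hsub : (Icc 1 n).filter (fun i => i % m = r ∧ Occurs (qS σ) x B i) ⊆
      (range (Nat.sqrt n + 1)).biUnion
        (fun t => (occSet (σ t) (st σ t) B m r).image (fun a => st σ t + a)) ∪ range M := by
    intro i hi
    rw [mem_filter, mem_Icc] at hi
    obtain ⟨⟨hi1, hi2⟩, hi3, hi4⟩ := hi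
    rw [mem_union, mem_range]
    by_cases hiM : i < M
    · exact Or.inr hiM
    left
    have hdig : ∀ j : Fin k, eS σ (i + j) = B j := by
      intro j
      have h1 := hi4 j
      rw [hx (i + j) (by omega)] at h1
      exact_mod_cast h1
    have hIn : ∀ j < k, InS σ (i + j) := by
      intro j hj
      by_contra hcon
      have h1 := hdig ⟨j, hj⟩
      unfold eS at h1
      rw [if_neg hcon] at h1
      have h2 := hM ⟨j, hj⟩
      simp only at h1
      omega
    obtain ⟨h1, h2, h3⟩ := window_data hk hIn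
    rw [mem_biUnion]
    refine ⟨Nat.sqrt i, ?_, ?_⟩
    · rw [mem_range, Nat.lt_succ_iff]
      exact Nat.sqrt_le_sqrt hi2
    · rw [mem_image]
      refine ⟨i - st σ (Nat.sqrt i), ?_, by omega⟩
      unfold occSet
      rw [mem_filter, mem_range]
      refine ⟨h2, ?_, ?_⟩
      · rw [Nat.add_sub_cancel' h1]; exact hi3
      · intro j
        have h4 := hdig j
        unfold eS at h4
        rw [if_pos (hIn j j.2), h3 j j.2] at h4
        rw [← h4]
        congr 1
        omega
  refine (card_le_card hsub).trans ((card_union_le _ _).trans ?_)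
  rw [card_range]
  apply Nat.add_le_add_right
  refine card_biUnion_le.trans (sum_le_sum fun t _ => card_image_le)

lemma in_slot (h : Good σ) : ∃ t0, ∀ t, t0 ≤ t → ∀ a, a < (σ t).len →
    Nat.sqrt (st σ t + a) = t ∧ InS σ (st σ t + a) := by
  obtain ⟨t0, ht0⟩ := Filter.eventually_atTop.1 h.hlen
  refine ⟨t0, fun t ht a ha => ?_⟩
  have h1 := ht0 t ht
  have h2 := st_lower (σ := σ) t
  have h3 := st_upper h t
  have h4 : (t + 1) ^ 2 = t ^ 2 + 2 * t + 1 := by ring
  have h5 : Nat.sqrt (st σ t + a) = t := sqrt_eq (by omega) (by omega)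
  refine ⟨h5, ?_⟩
  unfold InS
  rw [h5]
  omega

theorem count_ge (h : Good σ) {x : ℝ} (hx : ∀ n, 1 ≤ n → digit (qS σ) x n = eS σ n) {k : ℕ}
    (hk : 1 ≤ k) (B : Fin k → ℕ) (m r : ℕ) :
    ∃ C : ℕ, ∀ n, ∑ t ∈ range (Nat.sqrt n), (occSet (σ t) (st σ t) B m r).card ≤
      count (qS σ) x B m r n + C := by
  classical
  obtain ⟨t0, ht0⟩ := in_slot h
  refine ⟨∑ t ∈ range t0, (occSet (σ t) (st σ t) B m r).card, fun n => ?_⟩
  have hsub : range (Nat.sqrt n) ⊆ range t0 ∪ Ico t0 (Nat.sqrt n) := by
    intro t ht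
    rw [mem_range] at ht
    rw [mem_union, mem_range, mem_Ico]
    omega
  have h1 : ∑ t ∈ range (Nat.sqrt n), (occSet (σ t) (st σ t) B m r).card ≤
      ∑ t ∈ range t0 ∪ Ico t0 (Nat.sqrt n), (occSet (σ t) (st σ t) B m r).card :=
    sum_le_sum_of_subset hsub
  have h2 : ∑ t ∈ range t0 ∪ Ico t0 (Nat.sqrt n), (occSet (σ t) (st σ t) B m r).card ≤
      ∑ t ∈ range t0, (occSet (σ t) (st σ t) B m r).card +
        ∑ t ∈ Ico t0 (Nat.sqrt n), (occSet (σ t) (st σ t) B m r).card := by
    rw [← sum_union_inter]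
    omega
  have h3 : ∑ t ∈ Ico t0 (Nat.sqrt n), (occSet (σ t) (st σ t) B m r).card ≤
      count (qS σ) x B m r n := by
    have hinj : ∀ t, Function.Injective (fun a => st σ t + a) := fun t a b hab => by
      simpa using hab
    have hmem : ∀ t ∈ Ico t0 (Nat.sqrt n), ∀ a ∈ occSet (σ t) (st σ t) B m r,
        a < (σ t).len ∧ a + k ≤ (σ t).len := by
      intro t _ a ha
      unfold occSet at ha
      rw [mem_filter, mem_range] at ha
      omega
    calc ∑ t ∈ Ico t0 (Nat.sqrt n), (occSet (σ t) (st σ t) B m r).card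
        = ∑ t ∈ Ico t0 (Nat.sqrt n),
            ((occSet (σ t) (st σ t) B m r).image (fun a => st σ t + a)).card := by
          refine sum_congr rfl fun t _ => ?_
          rw [card_image_of_injective _ (hinj t)]
      _ = ((Ico t0 (Nat.sqrt n)).biUnion
            (fun t => (occSet (σ t) (st σ t) B m r).image (fun a => st σ t + a))).card := by
          rw [card_biUnion]
          intro t ht t' ht' hne
          rw [Function.onFun, disjoint_left]
          intro i hi hi'
          rw [mem_image] at hi hi'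
          obtain ⟨a, ha, rfl⟩ := hi
          obtain ⟨a', ha', hh⟩ := hi'
          apply hne
          rw [mem_coe] at ht ht'
          have e1 := (ht0 t (mem_Ico.1 ht).1 a (hmem t ht a ha).1).1
          have e2 := (ht0 t' (mem_Ico.1 ht').1 a' (hmem t' ht' a' ha').1).1
          rw [← e1, ← e2, hh]
      _ ≤ count (qS σ) x B m r n := by
          unfold count
          apply card_le_card
          intro i hi
          rw [mem_biUnion] at hi
          obtain ⟨t, ht, hi⟩ := hi
          rw [mem_image] at hi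
          obtain ⟨a, ha, rfl⟩ := hi
          obtain ⟨h4, h5⟩ := hmem t ht a ha
          rw [mem_Ico] at ht
          unfold occSet at ha
          rw [mem_filter, mem_range] at ha
          obtain ⟨ha1, ha2, ha3⟩ := ha
          rw [mem_filter, mem_Icc]
          have h6 := st_lower (σ := σ) t
          refine ⟨⟨by omega, ?_⟩, ha2, ?_⟩
          · have e1 := (ht0 t ht.1 a h4).1
            by_contra hcon
            have : Nat.sqrt n ≤ Nat.sqrt (st σ t + a) := Nat.sqrt_le_sqrt (by omega)
            omega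
          · intro j
            have h7 := ht0 t ht.1 (a + j) (by omega)
            rw [hx _ (by omega), add_assoc]
            unfold eS
            rw [if_pos h7.2, h7.1, Nat.add_sub_cancel_left, ha3 j]
  omega

theorem weight_le (h : Good σ) {k : ℕ} (hk : 1 ≤ k) (m r : ℕ) (n : ℕ) :
    weight (qS σ) k m r n ≤
      ∑ t ∈ range (Nat.sqrt n + 1), ((winSet (σ t) (st σ t) k m r).card : ℝ) * (((σ t).b : ℝ) ^ k)⁻¹ + 2 := by
  classical
  unfold weight
  have hq1 : ∀ i, (1 : ℝ) ≤ qS σ i := by
    intro i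
    unfold qS
    split_ifs
    · have := h.hb (Nat.sqrt i)
      exact_mod_cast (by omega : 1 ≤ (σ (Nat.sqrt i)).b)
    · have : 1 ≤ 2 ^ (i + 1) := Nat.one_le_two_pow
      exact_mod_cast this
  rw [← sum_filter_add_sum_filter_not _ (fun i => ∀ j < k, InS σ (i + j))]
  apply add_le_add
  · rw [← sum_fiberwise_of_maps_to (g := Nat.sqrt) (t := range (Nat.sqrt n + 1))]
    · apply sum_le_sum
      intro t _
      have hval : ∀ i ∈ (((Icc 1 n).filter (fun i => i % m = r)).filter
          (fun i => ∀ j < k, InS σ (i + j))).filter (fun i => Nat.sqrt i = t),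
          (∏ j ∈ range k, (qS σ (i + j) : ℝ))⁻¹ = (((σ t).b : ℝ) ^ k)⁻¹ := by
        intro i hi
        rw [mem_filter, mem_filter] at hi
        obtain ⟨⟨-, hIn⟩, hit⟩ := hi
        obtain ⟨-, -, h3⟩ := window_data hk hIn
        congr 1
        rw [← card_range k, ← prod_const, card_range]
        apply prod_congr rfl
        intro j hj
        rw [mem_range] at hj
        unfold qS
        rw [if_pos (hIn j hj), h3 j hj, hit]
      rw [sum_congr rfl hval, sum_const, nsmul_eq_mul]
      apply mul_le_mul_of_nonneg_right _ (by positivity)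
      have hsub : ((((Icc 1 n).filter (fun i => i % m = r)).filter
          (fun i => ∀ j < k, InS σ (i + j))).filter (fun i => Nat.sqrt i = t)) ⊆
          (winSet (σ t) (st σ t) k m r).image (fun a => st σ t + a) := by
        intro i hi
        rw [mem_filter, mem_filter, mem_filter] at hi
        obtain ⟨⟨⟨-, him⟩, hIn⟩, hit⟩ := hi
        obtain ⟨h1, h2, -⟩ := window_data hk hIn
        rw [hit] at h1 h2
        rw [mem_image]
        refine ⟨i - st σ t, ?_, by omega⟩
        unfold winSet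
        rw [mem_filter, mem_range]
        refine ⟨h2, ?_⟩
        rw [Nat.add_sub_cancel' h1]; exact him
      exact_mod_cast (card_le_card hsub).trans card_image_le
    · intro i hi
      rw [mem_filter, mem_filter, mem_Icc] at hi
      rw [mem_range, Nat.lt_succ_iff]
      exact Nat.sqrt_le_sqrt hi.1.1.2
  · refine le_trans (sum_le_sum ?_) (sum_half _)
    intro i hi
    rw [mem_filter] at hi
    have h1 := hi.2
    push Not at h1
    obtain ⟨j, hj, hjn⟩ := h1
    have h2 : (2 : ℝ) ^ i ≤ ∏ j ∈ range k, (qS σ (i + j) : ℝ) := by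
      have h3 : (2 : ℝ) ^ i ≤ qS σ (i + j) := by
        unfold qS
        rw [if_neg hjn]
        push_cast
        exact pow_le_pow_right₀ (by norm_num) (by omega)
      refine h3.trans ?_
      rw [← mul_prod_erase _ _ (mem_range.2 hj)]
      have h4 : (1 : ℝ) ≤ ∏ x ∈ (range k).erase j, (qS σ (i + x) : ℝ) := by
        calc (1 : ℝ) = ∏ x ∈ (range k).erase j, (1 : ℝ) := by simp
          _ ≤ _ := prod_le_prod (fun _ _ => zero_le_one) (fun x _ => hq1 _)
      have h5 := hq1 (i + j)
      nlinarith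
    rw [one_div, inv_pow]
    exact inv_anti₀ (by positivity) h2

theorem weight_ge (h : Good σ) {k : ℕ} (hk : 1 ≤ k) (m r : ℕ) :
    ∃ C : ℝ, 0 ≤ C ∧ ∀ n, ∑ t ∈ range (Nat.sqrt n),
      ((winSet (σ t) (st σ t) k m r).card : ℝ) * (((σ t).b : ℝ) ^ k)⁻¹ ≤
        weight (qS σ) k m r n + C := by
  classical
  obtain ⟨t0, ht0⟩ := in_slot h
  refine ⟨∑ t ∈ range t0, ((winSet (σ t) (st σ t) k m r).card : ℝ) * (((σ t).b : ℝ) ^ k)⁻¹,
    sum_nonneg fun t _ => by positivity, fun n => ?_⟩
  set f : ℕ → ℝ := fun t => ((winSet (σ t) (st σ t) k m r).card : ℝ) * (((σ t).b : ℝ) ^ k)⁻¹ with hf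
  have hf0 : ∀ t, 0 ≤ f t := fun t => by simp only [hf]; positivity
  have hsub : range (Nat.sqrt n) ⊆ range t0 ∪ Ico t0 (Nat.sqrt n) := by
    intro t ht
    rw [mem_range] at ht
    rw [mem_union, mem_range, mem_Ico]
    omega
  have h1 : ∑ t ∈ range (Nat.sqrt n), f t ≤ ∑ t ∈ range t0 ∪ Ico t0 (Nat.sqrt n), f t :=
    sum_le_sum_of_subset_of_nonneg hsub fun t _ _ => hf0 t
  have h2 : ∑ t ∈ range t0 ∪ Ico t0 (Nat.sqrt n), f t ≤
      ∑ t ∈ range t0, f t + ∑ t ∈ Ico t0 (Nat.sqrt n), f t := by
    rw [← sum_union_inter]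
    have := sum_nonneg (s := range t0 ∩ Ico t0 (Nat.sqrt n)) (fun t _ => hf0 t)
    linarith
  have h3 : ∑ t ∈ Ico t0 (Nat.sqrt n), f t ≤ weight (qS σ) k m r n := by
    have hinj : ∀ t, Function.Injective (fun a => st σ t + a) := fun t a b hab => by
      simpa using hab
    have hmem : ∀ t, ∀ a ∈ winSet (σ t) (st σ t) k m r, a < (σ t).len ∧ a + k ≤ (σ t).len := by
      intro t a ha
      unfold winSet at ha
      rw [mem_filter, mem_range] at ha
      omega
    calc ∑ t ∈ Ico t0 (Nat.sqrt n), f t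
        = ∑ t ∈ Ico t0 (Nat.sqrt n), ∑ i ∈ (winSet (σ t) (st σ t) k m r).image (fun a => st σ t + a),
            (∏ j ∈ range k, (qS σ (i + j) : ℝ))⁻¹ := by
          refine sum_congr rfl fun t ht => ?_
          rw [mem_Ico] at ht
          rw [sum_image fun a _ b _ hab => hinj t hab]
          simp only [hf]
          rw [← nsmul_eq_mul, ← sum_const]
          refine sum_congr rfl fun a ha => ?_
          congr 1
          rw [← card_range k, ← prod_const, card_range]
          apply prod_congr rfl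
          intro j hj
          rw [mem_range] at hj
          have h4 := hmem t a ha
          have h7 := ht0 t ht.1 (a + j) (by omega)
          rw [add_assoc]
          unfold qS
          rw [if_pos h7.2, h7.1]
      _ = ∑ i ∈ (Ico t0 (Nat.sqrt n)).biUnion
            (fun t => (winSet (σ t) (st σ t) k m r).image (fun a => st σ t + a)),
            (∏ j ∈ range k, (qS σ (i + j) : ℝ))⁻¹ := by
          rw [sum_biUnion]
          intro t ht t' ht' hne
          rw [Function.onFun, disjoint_left]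
          intro i hi hi'
          rw [mem_image] at hi hi'
          obtain ⟨a, ha, rfl⟩ := hi
          obtain ⟨a', ha', hh⟩ := hi'
          apply hne
          rw [mem_coe] at ht ht'
          have e1 := (ht0 t (mem_Ico.1 ht).1 a (hmem t a ha).1).1
          have e2 := (ht0 t' (mem_Ico.1 ht').1 a' (hmem t' a' ha').1).1
          rw [← e1, ← e2, hh]
      _ ≤ weight (qS σ) k m r n := by
          unfold weight
          apply sum_le_sum_of_subset_of_nonneg
          · intro i hi
            rw [mem_biUnion] at hi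
            obtain ⟨t, ht, hi⟩ := hi
            rw [mem_image] at hi
            obtain ⟨a, ha, rfl⟩ := hi
            obtain ⟨h4, h5⟩ := hmem t a ha
            rw [mem_Ico] at ht
            unfold winSet at ha
            rw [mem_filter, mem_range] at ha
            rw [mem_filter, mem_Icc]
            have h6 := st_lower (σ := σ) t
            refine ⟨⟨by omega, ?_⟩, ha.2⟩
            have e1 := (ht0 t ht.1 a h4).1
            by_contra hcon
            have : Nat.sqrt n ≤ Nat.sqrt (st σ t + a) := Nat.sqrt_le_sqrt (by omega)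
            omega
          · intro i _ _
            positivity
  linarith

end Pool.Agent.R485.Cantor
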